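import Pool.Agent.Lib.MP_f1e800_an.Defs

set_option autoImplicit false

open Filter Set

namespace Pool.Agent.Lib.MP_f1e800_an

variable {X : Type*} [NormedAddCommGroup X] [NormedSpace ℝ X]

/-- Scaled form of property `(β_p)`. -/
def BetaIneq (X : Type*) [NormedAddCommGroup X] [NormedSpace ℝ X] (c p : ℝ) : Prop :=
  ∀ R : ℝ, 0 < R → ∀ (x : X) (u : ℕ → X), ‖x‖ ≤ R → (∀ n, ‖u n‖ ≤ R) → ∀ σ : ℝ, 0 < σ →
    (∀ m n, m ≠ n → σ ≤ ‖u m - u n‖) → ∀ α : ℝ, (∀ n, α ≤ ‖x + u n‖) →
      α / 2 ≤ R * (1 - c * (σ / R) ^ p)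

lemma HasBeta.betaIneq {p : ℝ} (h : HasBeta X p) : ∃ c : ℝ, 0 < c ∧ BetaIneq X c p := by
  obtain ⟨c, hc, hβ⟩ := h
  refine ⟨c, hc, ?_⟩
  intro R hR x u hx hu σ hσ hsep α hα
  set x' : X := R⁻¹ • x with hx'
  set u' : ℕ → X := fun n => R⁻¹ • u n with hu'
  have hRi : 0 < R⁻¹ := by positivity
  have hx1 : ‖x'‖ ≤ 1 := by
    rw [hx', norm_smul, Real.norm_of_nonneg hRi.le, inv_mul_le_iff₀ hR, mul_one]
    exact hx
  have hu1 : ∀ n, ‖u' n‖ ≤ 1 := by
    intro n
    rw [hu']
    simp only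
    rw [norm_smul, Real.norm_of_nonneg hRi.le, inv_mul_le_iff₀ hR, mul_one]
    exact hu n
  have hdiff : ∀ m n, u' m - u' n = R⁻¹ • (u m - u n) := by
    intro m n
    rw [hu']
    simp only
    rw [smul_sub]
  have ht : σ / R ≤ sep u' := by
    unfold sep
    have : Nonempty {q : ℕ × ℕ // q.1 ≠ q.2} := ⟨⟨(0, 1), by simp⟩⟩
    apply le_ciInf
    intro q
    rw [hdiff, norm_smul, Real.norm_of_nonneg hRi.le, div_eq_inv_mul]
    exact mul_le_mul_of_nonneg_left (hsep _ _ q.2) hRi.le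
  have ht0 : 0 < σ / R := by positivity
  have ht2 : σ / R ≤ 2 := by
    rw [div_le_iff₀ hR]
    have h1 := hsep 0 1 (by norm_num)
    have h2 := norm_sub_le (u 0) (u 1)
    have h3 := hu 0
    have h4 := hu 1
    linarith
  have h1 := hβ (σ / R) ht0 ht2
  unfold betaBar at h1
  set S : Set ℝ := {a : ℝ | ∃ (x : X) (u : ℕ → X), ‖x‖ ≤ 1 ∧ (∀ n, ‖u n‖ ≤ 1) ∧ σ / R ≤ sep u ∧
    a = ⨅ n, ‖(2⁻¹ : ℝ) • (x + u n)‖} with hS
  have hbdd : BddAbove S := by
    refine ⟨1, ?_⟩
    rintro a ⟨y, v, hy, hv, -, rfl⟩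
    have hb : BddBelow (Set.range (fun n => ‖(2⁻¹ : ℝ) • (y + v n)‖)) :=
      ⟨0, by rintro _ ⟨n, rfl⟩; exact norm_nonneg _⟩
    refine (ciInf_le hb 0).trans ?_
    rw [norm_smul, Real.norm_of_nonneg (by norm_num)]
    have h5 := norm_add_le y (v 0)
    have h6 := hv 0
    linarith
  have hmem : (⨅ n, ‖(2⁻¹ : ℝ) • (x' + u' n)‖) ∈ S := ⟨x', u', hx1, hu1, ht, rfl⟩
  have h2 := le_csSup hbdd hmem
  have h3 : α / (2 * R) ≤ ⨅ n, ‖(2⁻¹ : ℝ) • (x' + u' n)‖ := by
    apply le_ciInf
    intro n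
    have h4 : (2⁻¹ : ℝ) • (x' + u' n) = (2⁻¹ * R⁻¹) • (x + u n) := by
      rw [hx', hu']
      simp only
      rw [← smul_add, smul_smul]
    rw [h4, norm_smul, Real.norm_of_nonneg (by positivity)]
    calc α / (2 * R) = (2⁻¹ * R⁻¹) * α := by field_simp
      _ ≤ _ := mul_le_mul_of_nonneg_left (hα n) (by positivity)
  have h4 : α / (2 * R) ≤ 1 - c * (σ / R) ^ p := by linarith
  calc α / 2 = R * (α / (2 * R)) := by field_simp
    _ ≤ R * (1 - c * (σ / R) ^ p) := mul_le_mul_of_nonneg_left h4 hR.le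

/-- If `α / 2 ≤ M - δ` with `M` the mean of `A, B ≥ 0`, then a gain of `M ^ (p-1) δ` results. -/
lemma rpow_gain {p α A B δ : ℝ} (hp : 1 < p) (hα : 0 ≤ α) (hA : 0 ≤ A) (hB : 0 ≤ B) (hδ : 0 ≤ δ)
    (h : α / 2 ≤ (A + B) / 2 - δ) :
    (α / 2) ^ p + ((A + B) / 2) ^ (p - 1) * δ ≤ A ^ p / 2 + B ^ p / 2 := by
  set M := (A + B) / 2 with hM
  have hM0 : 0 ≤ M := by positivity
  have hconv : M ^ p ≤ A ^ p / 2 + B ^ p / 2 := by
    have h1 := (convexOn_rpow hp.le).2 (Set.mem_Ici.mpr hA) (Set.mem_Ici.mpr hB)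
      (by norm_num : (0 : ℝ) ≤ 1 / 2) (by norm_num : (0 : ℝ) ≤ 1 / 2) (by norm_num)
    simp only [smul_eq_mul] at h1
    have h2 : 1 / 2 * A + 1 / 2 * B = M := by rw [hM]; ring
    rw [h2] at h1
    linarith
  rcases hM0.eq_or_lt with hM00 | hMpos
  · have hδ0 : δ = 0 := by linarith
    have hα0 : α = 0 := by linarith
    rw [hδ0, hα0, mul_zero, add_zero, zero_div, Real.zero_rpow (by linarith)]
    positivity
  · have h1 : (α / 2) ^ p ≤ (M - δ) ^ p := by
      apply Real.rpow_le_rpow (by positivity) h (by linarith)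
    have hMδ : 0 ≤ M - δ := by linarith
    have h2 : (M - δ) ^ p ≤ M ^ p - M ^ (p - 1) * δ := by
      have e1 : M - δ = M * (1 - δ / M) := by field_simp
      have hu0 : 0 ≤ 1 - δ / M := by
        rw [sub_nonneg, div_le_one hMpos]; linarith
      have hu1 : 1 - δ / M ≤ 1 := by
        have : 0 ≤ δ / M := by positivity
        linarith
      rw [e1, Real.mul_rpow hM0 hu0]
      have h3 : (1 - δ / M) ^ p ≤ 1 - δ / M := by
        calc (1 - δ / M) ^ p ≤ (1 - δ / M) ^ (1 : ℝ) :=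
              Real.rpow_le_rpow_of_exponent_ge_of_imp hu0 hu1 hp.le (fun _ h0 => absurd h0 (by linarith))
          _ = _ := Real.rpow_one _
      calc M ^ p * (1 - δ / M) ^ p ≤ M ^ p * (1 - δ / M) :=
            mul_le_mul_of_nonneg_left h3 (by positivity)
        _ = M ^ p - M ^ (p - 1) * δ := by
            have e2 : M ^ p = M ^ (p - 1) * M := by
              rw [← Real.rpow_add_one hMpos.ne']; ring_nf
            rw [e2]
            field_simp
    linarith

/-- The umbel inequality for Banach spaces with `(β_p)`. -/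
lemma banach_umbel {c p : ℝ} (hc : 0 < c) (hp : 1 < p) (hβ : BetaIneq X c p) :
    ∃ κ : ℝ, 0 < κ ∧ ∀ (a : X) (b : ℕ → X) (σ α β : ℝ), 0 ≤ σ → 0 ≤ α → (∀ n, ‖b n‖ ≤ β) →
      (∀ m n, m ≠ n → σ ≤ ‖b m - b n‖) → (∀ n, α ≤ ‖a + b n‖) →
      (α / 2) ^ p + κ * σ ^ p ≤ ‖a‖ ^ p / 2 + β ^ p / 2 := by
  have hp0 : 0 < p := by linarith
  -- choose η
  obtain ⟨η, hη0, hη1, hη⟩ : ∃ η : ℝ, 0 < η ∧ η < 1 ∧ ((1 + η) / 2) ^ p < 1 / 2 := by
    have hcont : Tendsto (fun η : ℝ => ((1 + η) / 2) ^ p) (nhds 0) (nhds (((1 + 0) / 2) ^ p)) := by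
      apply Tendsto.rpow_const
      · exact ((continuous_const.add continuous_id).div_const 2).tendsto 0
      · right; exact hp0.le
    have hlt : (((1 : ℝ) + 0) / 2) ^ p < 1 / 2 := by
      rw [add_zero]
      calc ((1 : ℝ) / 2) ^ p < ((1 : ℝ) / 2) ^ (1 : ℝ) :=
            Real.rpow_lt_rpow_of_exponent_gt (by norm_num) (by norm_num) hp
        _ = 1 / 2 := Real.rpow_one _
    have h1 := hcont.eventually (gt_mem_nhds hlt)
    obtain ⟨ε, hε, hball⟩ := Metric.eventually_nhds_iff.mp h1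
    refine ⟨min (ε / 2) (1 / 2), by positivity, ?_, ?_⟩
    · exact lt_of_le_of_lt (min_le_right _ _) (by norm_num)
    · apply hball
      rw [Real.dist_eq, sub_zero, abs_of_pos (by positivity)]
      exact lt_of_le_of_lt (min_le_left _ _) (by linarith)
  set κ₁ : ℝ := c with hκ₁
  set κ₂ : ℝ := c * η * 2⁻¹ ^ (p - 1) with hκ₂
  set κ₃ : ℝ := (1 / 2 - ((1 + η) / 2) ^ p) * 2⁻¹ ^ p with hκ₃
  have hκ₂0 : 0 < κ₂ := by positivity
  have hκ₃0 : 0 < κ₃ := by
    have : 0 < 1 / 2 - ((1 + η) / 2) ^ p := by linarith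
    positivity
  refine ⟨min κ₁ (min κ₂ κ₃), by positivity, ?_⟩
  intro a b σ α B hσ0 hα0 hbB hsep hα
  have hB0 : 0 ≤ B := (norm_nonneg _).trans (hbB 0)
  set A := ‖a‖ with hA
  have hA0 : 0 ≤ A := norm_nonneg _
  have hσB : σ ≤ 2 * B := by
    have h1 := hsep 0 1 (by norm_num)
    have h2 := norm_sub_le (b 0) (b 1)
    have h3 := hbB 0
    have h4 := hbB 1
    linarith
  have hαAB : α ≤ A + B := by
    have h1 := hα 0
    have h2 := norm_add_le a (b 0)
    have h3 := hbB 0
    linarith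
  rcases hσ0.eq_or_lt with hσ | hσ
  · -- no separation
    rw [← hσ, Real.zero_rpow hp0.ne', mul_zero, add_zero]
    have := rpow_gain hp hα0 hA0 hB0 (le_refl (0 : ℝ)) (by linarith : α / 2 ≤ (A + B) / 2 - 0)
    linarith
  have hBpos : 0 < B := by linarith
  have hσp : 0 ≤ σ ^ p := by positivity
  by_cases hAB : B ≤ A
  · -- Case 1
    have hApos : 0 < A := by linarith
    have h1 : α / 2 ≤ (A + B) / 2 - c * σ ^ p * B ^ (1 - p) := by
      have h2 := hβ B hBpos ((B / A) • a) b (by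
        rw [norm_smul, Real.norm_of_nonneg (by positivity), ← hA]
        field_simp
        exact le_refl _) hbB σ hσ hsep (α - (A - B)) (by
        intro n
        have h3 : ‖a + b n‖ ≤ ‖(B / A) • a + b n‖ + ‖(1 - B / A) • a‖ := by
          have : a + b n = ((B / A) • a + b n) + (1 - B / A) • a := by
            rw [sub_smul, one_smul]; abel
          rw [this]
          exact norm_add_le _ _
        have h4 : ‖(1 - B / A) • a‖ = A - B := by
          rw [norm_smul, Real.norm_of_nonneg, ← hA]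
          · field_simp
          · rw [sub_nonneg, div_le_one hApos]; exact hAB
        have h5 := hα n
        linarith)
      have h6 : B * (1 - c * (σ / B) ^ p) = B - c * σ ^ p * B ^ (1 - p) := by
        rw [Real.div_rpow hσ0 hB0, Real.rpow_sub hBpos, Real.rpow_one]
        field_simp
      rw [h6] at h2
      linarith
    have h2 := rpow_gain hp hα0 hA0 hB0 (by positivity) h1
    have h3 : c * σ ^ p ≤ ((A + B) / 2) ^ (p - 1) * (c * σ ^ p * B ^ (1 - p)) := by
      have h4 : B ^ (p - 1) ≤ ((A + B) / 2) ^ (p - 1) := by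
        apply Real.rpow_le_rpow hB0 (by linarith) (by linarith)
      have h5 : B ^ (p - 1) * B ^ (1 - p) = 1 := by
        rw [← Real.rpow_add hBpos]; simp
      calc c * σ ^ p = (B ^ (p - 1) * B ^ (1 - p)) * (c * σ ^ p) := by rw [h5, one_mul]
        _ = B ^ (p - 1) * (c * σ ^ p * B ^ (1 - p)) := by ring
        _ ≤ _ := mul_le_mul_of_nonneg_right h4 (by positivity)
    have h4 : min κ₁ (min κ₂ κ₃) * σ ^ p ≤ c * σ ^ p :=
      mul_le_mul_of_nonneg_right (min_le_left _ _) hσp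
    linarith
  · push Not at hAB
    by_cases hηA : η * B ≤ A
    · -- Case 2
      have hApos : 0 < A := lt_of_lt_of_le (by positivity) hηA
      have h1 : α / 2 ≤ (A + B) / 2 - A * (c * (σ / B) ^ p) := by
        have hAB' : 0 < A / B := by positivity
        have h2 := hβ A hApos a (fun n => (A / B) • b n) (le_of_eq hA.symm) (by
          intro n
          rw [norm_smul, Real.norm_of_nonneg hAB'.le]
          calc A / B * ‖b n‖ ≤ A / B * B := mul_le_mul_of_nonneg_left (hbB n) hAB'.le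
            _ = A := by field_simp) (A / B * σ) (by positivity) (by
          intro m n hmn
          rw [← smul_sub, norm_smul, Real.norm_of_nonneg hAB'.le]
          exact mul_le_mul_of_nonneg_left (hsep m n hmn) hAB'.le) (α - (B - A)) (by
          intro n
          have h3 : ‖a + b n‖ ≤ ‖a + (A / B) • b n‖ + ‖(1 - A / B) • b n‖ := by
            have : a + b n = (a + (A / B) • b n) + (1 - A / B) • b n := by
              rw [sub_smul, one_smul]; abel
            rw [this]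
            exact norm_add_le _ _
          have h4 : ‖(1 - A / B) • b n‖ ≤ B - A := by
            have h5 : 0 ≤ 1 - A / B := by
              rw [sub_nonneg, div_le_one hBpos]; exact hAB.le
            rw [norm_smul, Real.norm_of_nonneg h5]
            calc (1 - A / B) * ‖b n‖ ≤ (1 - A / B) * B := mul_le_mul_of_nonneg_left (hbB n) h5
              _ = B - A := by field_simp
          have h5 := hα n
          linarith)
        have h6 : A / B * σ / A = σ / B := by field_simp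
        rw [h6] at h2
        linarith
      have h2 := rpow_gain hp hα0 hA0 hB0 (by positivity) h1
      have h3 : κ₂ * σ ^ p ≤ ((A + B) / 2) ^ (p - 1) * (A * (c * (σ / B) ^ p)) := by
        have h4 : (2⁻¹ * B) ^ (p - 1) ≤ ((A + B) / 2) ^ (p - 1) := by
          apply Real.rpow_le_rpow (by positivity) (by linarith) (by linarith)
        have h5 : B ^ (p - 1) * B = B ^ p := by
          rw [← Real.rpow_add_one hBpos.ne']; ring_nf
        have hBp : 0 < B ^ p := by positivity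
        calc κ₂ * σ ^ p = 2⁻¹ ^ (p - 1) * B ^ (p - 1) * (η * B * (c * (σ / B) ^ p)) := by
              rw [hκ₂, Real.div_rpow hσ0 hB0, ← h5]
              have : 0 < B ^ (p - 1) := by positivity
              field_simp
          _ = (2⁻¹ * B) ^ (p - 1) * (η * B * (c * (σ / B) ^ p)) := by
              rw [Real.mul_rpow (by norm_num) hB0]
          _ ≤ ((A + B) / 2) ^ (p - 1) * (A * (c * (σ / B) ^ p)) := by
              gcongr
      have h4 : min κ₁ (min κ₂ κ₃) * σ ^ p ≤ κ₂ * σ ^ p :=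
        mul_le_mul_of_nonneg_right ((min_le_right _ _).trans (min_le_left _ _)) hσp
      linarith
    · -- Case 3
      push Not at hηA
      have h1 : (α / 2) ^ p ≤ ((1 + η) / 2) ^ p * B ^ p := by
        rw [← Real.mul_rpow (by positivity) hB0]
        apply Real.rpow_le_rpow (by positivity) _ hp0.le
        linarith
      have h2 : κ₃ * σ ^ p ≤ (1 / 2 - ((1 + η) / 2) ^ p) * B ^ p := by
        rw [hκ₃, mul_assoc]
        apply mul_le_mul_of_nonneg_left _ (by linarith)
        rw [← Real.mul_rpow (by norm_num) hσ0]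
        apply Real.rpow_le_rpow (by positivity) (by linarith) hp0.le
      have h4 : min κ₁ (min κ₂ κ₃) * σ ^ p ≤ κ₃ * σ ^ p :=
        mul_le_mul_of_nonneg_right ((min_le_right _ _).trans (min_le_right _ _)) hσp
      have h5 : 0 ≤ A ^ p := by positivity
      linarith

end Pool.Agent.Lib.MP_f1e800_an
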