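import Pool.Agent.Lib.MP_f1e800_an.Umbel

set_option autoImplicit false

open Filter Set MeasureTheory

namespace Pool.Agent.Lib.MP_f1e800_an

variable {X : Type*} [NormedAddCommGroup X] [NormedSpace ℝ X]

lemma evar_le_of_lipschitz {γ : ℝ → X} {K : NNReal} (h : LipschitzOnWith K γ (Icc 0 1)) {s t : ℝ}
    (hs : s ∈ Icc (0 : ℝ) 1) (ht : t ∈ Icc (0 : ℝ) 1) :
    eVariationOn γ (Icc 0 1 ∩ Icc s t) ≤ K * ENNReal.ofReal (t - s) := by
  have h1 := h.comp_eVariationOn_le (g := id) (s := Icc 0 1 ∩ Icc s t) (by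
    intro x hx
    exact hx.1)
  rw [Function.comp_id, eVariationOn_id hs ht] at h1
  exact h1

/-- A function whose derivative is bounded by `A ‖γ'‖` grows by at most `A` times the length
of `γ`. -/
lemma sub_le_of_deriv_le {γ : ℝ → X} {K : NNReal} (hγ : LipschitzOnWith K γ (Icc 0 1))
    {f : ℝ → ℝ} {K' : NNReal} (hf : LipschitzOnWith K' f (Icc 0 1)) {A : ℝ} (hA : 0 ≤ A)
    (hd : ∀ᵐ t ∂(volume.restrict (Icc (0 : ℝ) 1)), DifferentiableAt ℝ γ t ∧
      ∃ D, HasDerivAt f D t ∧ D ≤ A * ‖deriv γ t‖) :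
    f 1 - f 0 ≤ A * (eVariationOn γ (Icc 0 1)).toReal := by
  have h0 : (0 : ℝ) ∈ Icc (0 : ℝ) 1 := by simp
  have h1 : (1 : ℝ) ∈ Icc (0 : ℝ) 1 := by simp
  have hbv : BoundedVariationOn γ (Icc 0 1) := by
    have := evar_le_of_lipschitz hγ h0 h1
    rw [inter_self] at this
    exact ne_top_of_le_ne_top (by finiteness) this
  have hlbv : LocallyBoundedVariationOn γ (Icc 0 1) := hbv.locallyBoundedVariationOn
  set V : ℝ → ℝ := fun t => variationOnFromTo γ (Icc 0 1) 0 t with hV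
  have hVsub : ∀ s ∈ Icc (0 : ℝ) 1, ∀ t ∈ Icc (0 : ℝ) 1, s ≤ t →
      V t - V s = (eVariationOn γ (Icc 0 1 ∩ Icc s t)).toReal := by
    intro s hs t ht hst
    have h2 := variationOnFromTo.sub_right hlbv h0 ht hs
    rw [hV]
    simp only
    rw [h2, variationOnFromTo.eq_of_le γ _ hst]
  have hfin : ∀ s t : ℝ, eVariationOn γ (Icc 0 1 ∩ Icc s t) ≠ ⊤ := by
    intro s t
    exact ne_top_of_le_ne_top hbv (eVariationOn.mono γ inter_subset_left)
  have hVlip : LipschitzOnWith K V (Icc 0 1) := by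
    apply LipschitzOnWith.of_dist_le_mul
    intro s hs t ht
    rcases le_total s t with hst | hst
    · rw [dist_comm, Real.dist_eq, hVsub s hs t ht hst, abs_of_nonneg ENNReal.toReal_nonneg,
        dist_comm, Real.dist_eq, abs_of_nonneg (sub_nonneg.mpr hst)]
      have h3 := ENNReal.toReal_mono (by finiteness) (evar_le_of_lipschitz hγ hs ht)
      rwa [ENNReal.toReal_mul, ENNReal.toReal_ofReal (sub_nonneg.mpr hst), ENNReal.coe_toReal] at h3
    · rw [Real.dist_eq, hVsub t ht s hs hst, abs_of_nonneg ENNReal.toReal_nonneg,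
        Real.dist_eq, abs_of_nonneg (sub_nonneg.mpr hst)]
      have h3 := ENNReal.toReal_mono (by finiteness) (evar_le_of_lipschitz hγ ht hs)
      rwa [ENNReal.toReal_mul, ENNReal.toReal_ofReal (sub_nonneg.mpr hst), ENNReal.coe_toReal] at h3
  have hVge : ∀ s ∈ Icc (0 : ℝ) 1, ∀ t ∈ Icc (0 : ℝ) 1, s ≤ t → ‖γ t - γ s‖ ≤ V t - V s := by
    intro s hs t ht hst
    rw [hVsub s hs t ht hst]
    have h3 := eVariationOn.edist_le γ (s := Icc 0 1 ∩ Icc s t) (x := t) (y := s)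
      ⟨ht, ⟨hst, le_rfl⟩⟩ ⟨hs, ⟨le_rfl, hst⟩⟩
    have h4 := ENNReal.toReal_mono (hfin s t) h3
    rwa [edist_dist, ENNReal.toReal_ofReal dist_nonneg, dist_eq_norm] at h4
  -- absolutely continuous functions
  have huIcc : uIcc (0 : ℝ) 1 = Icc 0 1 := uIcc_of_le zero_le_one
  have hVac : AbsolutelyContinuousOnInterval V 0 1 :=
    (huIcc ▸ hVlip : LipschitzOnWith K V (uIcc 0 1)).absolutelyContinuousOnInterval
  have hfac : AbsolutelyContinuousOnInterval f 0 1 :=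
    (huIcc ▸ hf : LipschitzOnWith K' f (uIcc 0 1)).absolutelyContinuousOnInterval
  have hFac : AbsolutelyContinuousOnInterval (fun t => A * V t - f t) 0 1 :=
    (hVac.const_mul A).sub hfac
  have hint := hFac.integral_deriv_eq_sub
  have hnn : 0 ≤ ∫ t in (0 : ℝ)..1, deriv (fun t => A * V t - f t) t := by
    rw [intervalIntegral.integral_of_le zero_le_one]
    apply integral_nonneg_of_ae
    have hV' : ∀ᵐ t ∂(volume.restrict (Ioc (0 : ℝ) 1)), DifferentiableAt ℝ V t := by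
      rw [ae_restrict_iff' measurableSet_Ioc]
      filter_upwards [hVac.ae_differentiableAt] with t ht hmem
      apply ht
      rw [huIcc]
      exact Ioc_subset_Icc_self hmem
    have hd' : ∀ᵐ t ∂(volume.restrict (Ioc (0 : ℝ) 1)), DifferentiableAt ℝ γ t ∧
        ∃ D, HasDerivAt f D t ∧ D ≤ A * ‖deriv γ t‖ :=
      ae_restrict_of_ae_restrict_of_subset Ioc_subset_Icc_self hd
    have hne : ∀ᵐ t ∂(volume.restrict (Ioc (0 : ℝ) 1)), t ∈ Ioo (0 : ℝ) 1 := by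
      rw [ae_restrict_iff' measurableSet_Ioc]
      have : ∀ᵐ t : ℝ ∂volume, t ≠ 1 := by
        rw [ae_iff]
        simp
      filter_upwards [this] with t ht hmem
      exact ⟨hmem.1, lt_of_le_of_ne hmem.2 ht⟩
    filter_upwards [hV', hd', hne] with t hVt hdt hmem
    obtain ⟨hγt, D, hfD, hD⟩ := hdt
    have htI : t ∈ Icc (0 : ℝ) 1 := Ioo_subset_Icc_self hmem
    have hder : deriv (fun t => A * V t - f t) t = A * deriv V t - D := by
      exact ((hVt.hasDerivAt.const_mul A).sub hfD).deriv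
    rw [hder]
    have hle : ‖deriv γ t‖ ≤ deriv V t := by
      have e1 : Tendsto (fun u => ‖slope γ t u‖) (nhdsWithin t (Ioi t)) (nhds ‖deriv γ t‖) := by
        have := hγt.hasDerivAt.hasDerivWithinAt (s := Ioi t)
        rw [hasDerivWithinAt_iff_tendsto_slope' (by simp)] at this
        exact this.norm
      have e2 : Tendsto (fun u => slope V t u) (nhdsWithin t (Ioi t)) (nhds (deriv V t)) := by
        have := hVt.hasDerivAt.hasDerivWithinAt (s := Ioi t)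
        rwa [hasDerivWithinAt_iff_tendsto_slope' (by simp)] at this
      apply le_of_tendsto_of_tendsto e1 e2
      have e3 : Ioo t 1 ∈ nhdsWithin t (Ioi t) := Ioo_mem_nhdsGT hmem.2
      filter_upwards [e3] with u hu
      have huI : u ∈ Icc (0 : ℝ) 1 := ⟨by linarith [hmem.1, hu.1], hu.2.le⟩
      have e4 := hVge t htI u huI hu.1.le
      have hut : 0 < u - t := by linarith [hu.1]
      rw [slope_def_module, slope_def_module, norm_smul, Real.norm_of_nonneg (by positivity),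
        smul_eq_mul]
      exact mul_le_mul_of_nonneg_left e4 (by positivity)
    have : A * ‖deriv γ t‖ ≤ A * deriv V t := mul_le_mul_of_nonneg_left hle hA
    show 0 ≤ A * deriv V t - D
    linarith
  rw [hint] at hnn
  have hV1 : V 1 - V 0 = (eVariationOn γ (Icc 0 1)).toReal := by
    rw [hVsub 0 h0 1 h1 zero_le_one, inter_self]
  have : A * (V 1 - V 0) = A * V 1 - A * V 0 := by ring
  rw [← hV1]
  linarith

/-- The homogeneous metric is bounded by the length of horizontal curves. -/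
lemma Nn_le_length {l : ℝ} (hl : 0 < l) {ω : X →L[ℝ] X →L[ℝ] ℝ}
    (hanti : ∀ x y, ω x y = - ω y x) (hlω : l ^ 2 * ‖ω‖ ≤ 2) {γ : ℝ → X} {z : ℝ → ℝ}
    (h : IsHorizontal ω γ z) :
    ENNReal.ofReal (Nn l ω (γ 0, z 0) (γ 1, z 1)) ≤ 2 * eVariationOn γ (Icc 0 1) := by
  obtain ⟨⟨K, hK⟩, ⟨K', hK'⟩, hae⟩ := h
  have h0 : (0 : ℝ) ∈ Icc (0 : ℝ) 1 := by simp
  have h1 : (1 : ℝ) ∈ Icc (0 : ℝ) 1 := by simp
  have hbv : eVariationOn γ (Icc 0 1) ≠ ⊤ := by
    have := evar_le_of_lipschitz hK h0 h1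
    rw [inter_self] at this
    exact ne_top_of_le_ne_top (by finiteness) this
  set ℓ : ℝ := (eVariationOn γ (Icc 0 1)).toReal with hℓ
  have hℓ0 : 0 ≤ ℓ := ENNReal.toReal_nonneg
  have hnorm : ∀ t ∈ Icc (0 : ℝ) 1, ‖γ t - γ 0‖ ≤ ℓ := by
    intro t ht
    have h3 := eVariationOn.edist_le γ (s := Icc 0 1) ht h0
    have h4 := ENNReal.toReal_mono hbv h3
    rwa [edist_dist, ENNReal.toReal_ofReal dist_nonneg, dist_eq_norm] at h4
  have hself : ∀ x, ω x x = 0 := by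
    intro x
    have := hanti x x
    linarith
  -- the translated vertical coordinate
  set f : ℝ → ℝ := fun t => z t - ω (γ 0) (γ t) with hf
  have hflip : ∃ K₂ : NNReal, LipschitzOnWith K₂ f (Icc 0 1) :=
    ⟨_, hK'.sub ((ω (γ 0)).lipschitz.comp_lipschitzOnWith hK)⟩
  obtain ⟨K₂, hK₂⟩ := hflip
  have hfder : ∀ᵐ t ∂(volume.restrict (Icc (0 : ℝ) 1)), DifferentiableAt ℝ γ t ∧
      HasDerivAt f (ω (γ t - γ 0) (deriv γ t)) t ∧
      |ω (γ t - γ 0) (deriv γ t)| ≤ (‖ω‖ * ℓ) * ‖deriv γ t‖ := by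
    have hmem : ∀ᵐ t ∂(volume.restrict (Icc (0 : ℝ) 1)), t ∈ Icc (0 : ℝ) 1 :=
      ae_restrict_mem measurableSet_Icc
    filter_upwards [hae, hmem] with t ht htI
    refine ⟨ht.1, ?_, ?_⟩
    · have e1 : HasDerivAt (fun t => ω (γ 0) (γ t)) (ω (γ 0) (deriv γ t)) t :=
        (ω (γ 0)).hasFDerivAt.comp_hasDerivAt t ht.1.hasDerivAt
      have e2 := ht.2.sub e1
      have e3 : ω (γ t - γ 0) (deriv γ t) = ω (γ t) (deriv γ t) - ω (γ 0) (deriv γ t) := by
        simp only [map_sub, sub_apply]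
      rw [e3]
      exact e2
    · refine (ω.le_opNorm₂ _ _).trans ?_
      have := hnorm t htI
      gcongr
  have hA : 0 ≤ ‖ω‖ * ℓ := by positivity
  have hup := sub_le_of_deriv_le hK hK₂ hA (by
    filter_upwards [hfder] with t ht
    exact ⟨ht.1, _, ht.2.1, (le_abs_self _).trans ht.2.2⟩)
  have hdown := sub_le_of_deriv_le hK (f := fun t => - f t) hK₂.neg hA (by
    filter_upwards [hfder] with t ht
    exact ⟨ht.1, _, ht.2.1.neg, (neg_le_abs _).trans ht.2.2⟩)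
  have hvert : |vert ω (γ 0, z 0) (γ 1, z 1)| ≤ ‖ω‖ * ℓ * ℓ := by
    have e1 : vert ω (γ 0, z 0) (γ 1, z 1) = f 1 - f 0 := by
      unfold vert
      rw [hf]
      simp only [hself]
      ring
    rw [e1, abs_le]
    constructor
    · linarith
    · linarith
  have hN : Nn l ω (γ 0, z 0) (γ 1, z 1) ≤ 2 * ℓ := by
    apply max_le
    · have := hnorm 1 h1
      simp only
      linarith
    · have e2 : (l * √|vert ω (γ 0, z 0) (γ 1, z 1)|) ^ 2 ≤ (2 * ℓ) ^ 2 := by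
        rw [mul_pow, Real.sq_sqrt (abs_nonneg _)]
        calc l ^ 2 * |vert ω (γ 0, z 0) (γ 1, z 1)| ≤ l ^ 2 * (‖ω‖ * ℓ * ℓ) := by gcongr
          _ = (l ^ 2 * ‖ω‖) * (ℓ * ℓ) := by ring
          _ ≤ 2 * (ℓ * ℓ) := mul_le_mul_of_nonneg_right hlω (by positivity)
          _ ≤ (2 * ℓ) ^ 2 := by nlinarith [mul_nonneg hℓ0 hℓ0]
      exact (abs_le_of_sq_le_sq' e2 (by positivity)).2
  calc ENNReal.ofReal (Nn l ω (γ 0, z 0) (γ 1, z 1)) ≤ ENNReal.ofReal (2 * ℓ) :=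
        ENNReal.ofReal_le_ofReal hN
    _ = 2 * eVariationOn γ (Icc 0 1) := by
        rw [ENNReal.ofReal_mul (by norm_num), hℓ, ENNReal.ofReal_toReal hbv]
        simp

lemma Nn_le_dcc {l : ℝ} (hl : 0 < l) {ω : X →L[ℝ] X →L[ℝ] ℝ}
    (hanti : ∀ x y, ω x y = - ω y x) (hlω : l ^ 2 * ‖ω‖ ≤ 2) (g h : X × ℝ) :
    ENNReal.ofReal (Nn l ω g h) ≤ 2 * dcc ω g h := by
  unfold dcc
  rw [ENNReal.mul_iInf_of_ne (by norm_num) (by norm_num)]
  apply le_iInf
  rintro ⟨⟨γ, z⟩, hc, h1, h2⟩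
  subst h1
  subst h2
  exact Nn_le_length hl hanti hlω hc

/-- An explicit horizontal curve. -/
lemma dcc_le {ω : X →L[ℝ] X →L[ℝ] ℝ} (hanti : ∀ x y, ω x y = - ω y x) {e f : X}
    (hef : ω e f = -35) (g h : X × ℝ) :
    dcc ω g h ≤ ENNReal.ofReal (‖h.1 - g.1‖ + (13 * ‖e‖ + 63 * ‖f‖) * √|vert ω g h|) := by
  obtain ⟨x, s⟩ := g
  obtain ⟨y, t⟩ := h
  have hself : ∀ x, ω x x = 0 := by
    intro x
    have := hanti x x
    linarith
  set v : X := y - x with hv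
  set τ : ℝ := vert ω (x, s) (y, t) with hτ
  set A : ℝ := √|τ| with hA
  set B : ℝ := SignType.sign τ * √|τ| with hB
  have hA0 : 0 ≤ A := Real.sqrt_nonneg _
  have hBA : |B| ≤ A := by
    rw [hB, abs_mul, abs_of_nonneg hA0]
    rcases lt_trichotomy τ 0 with h | h | h
    · simp [sign_neg h]
    · simp [h, hA0]
    · simp [sign_pos h]
  have hAB : A * B = τ := by
    rw [hB, hA, mul_left_comm, Real.mul_self_sqrt (abs_nonneg _), sign_mul_abs]
  set γ : ℝ → X := fun θ => x + θ • v + (A * (θ - 3 * θ ^ 2 + 2 * θ ^ 3)) • e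
    + (B * (θ - 6 * θ ^ 2 + 10 * θ ^ 3 - 5 * θ ^ 4)) • f with hγ
  set z : ℝ → ℝ := fun θ => s + ω x v * θ + A * (θ - 3 * θ ^ 2 + 2 * θ ^ 3) * ω x e
    + B * (θ - 6 * θ ^ 2 + 10 * θ ^ 3 - 5 * θ ^ 4) * ω x f
    + A * (θ * (θ - 3 * θ ^ 2 + 2 * θ ^ 3) - 2 * (θ ^ 2 / 2 - θ ^ 3 + θ ^ 4 / 2)) * ω v e
    + B * (θ * (θ - 6 * θ ^ 2 + 10 * θ ^ 3 - 5 * θ ^ 4)
      - 2 * (θ ^ 2 / 2 - 2 * θ ^ 3 + 5 / 2 * θ ^ 4 - θ ^ 5)) * ω v f
    + A * B * (- θ ^ 3 + 4 * θ ^ 4 - 33 / 5 * θ ^ 5 + 5 * θ ^ 6 - 10 / 7 * θ ^ 7) * ω e f with hz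
  set γ' : ℝ → X := fun θ => v + (A * (1 - 6 * θ + 6 * θ ^ 2)) • e
    + (B * (1 - 12 * θ + 30 * θ ^ 2 - 20 * θ ^ 3)) • f with hγ'
  have hγd : ∀ θ, HasDerivAt γ (γ' θ) θ := by
    intro θ
    have e1 : HasDerivAt (fun θ : ℝ => θ • v) ((1 : ℝ) • v) θ := (hasDerivAt_id θ).smul_const v
    have p : ∀ n : ℕ, HasDerivAt (fun θ : ℝ => θ ^ n) (n * θ ^ (n - 1)) θ := fun n => hasDerivAt_pow n θ
    have i : HasDerivAt (fun θ : ℝ => θ) 1 θ := hasDerivAt_id θ
    have q1 : HasDerivAt (fun θ : ℝ => θ - 3 * θ ^ 2 + 2 * θ ^ 3) (1 - 6 * θ + 6 * θ ^ 2) θ := by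
      convert! (i.sub ((p 2).const_mul 3)).add ((p 3).const_mul 2) using 1
      norm_num; ring
    have q2 : HasDerivAt (fun θ : ℝ => θ - 6 * θ ^ 2 + 10 * θ ^ 3 - 5 * θ ^ 4)
        (1 - 12 * θ + 30 * θ ^ 2 - 20 * θ ^ 3) θ := by
      convert! ((i.sub ((p 2).const_mul 6)).add ((p 3).const_mul 10)).sub ((p 4).const_mul 5) using 1
      norm_num; ring
    have e2 : HasDerivAt (fun θ : ℝ => A * (θ - 3 * θ ^ 2 + 2 * θ ^ 3))
        (A * (1 - 6 * θ + 6 * θ ^ 2)) θ := q1.const_mul A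
    have e3 : HasDerivAt (fun θ : ℝ => B * (θ - 6 * θ ^ 2 + 10 * θ ^ 3 - 5 * θ ^ 4))
        (B * (1 - 12 * θ + 30 * θ ^ 2 - 20 * θ ^ 3)) θ := q2.const_mul B
    have h4 := ((e1.const_add x).add (e2.smul_const e)).add (e3.smul_const f)
    rw [one_smul] at h4
    exact h4
  have hzd : ∀ θ, HasDerivAt z (ω (γ θ) (γ' θ)) θ := by
    intro θ
    have e1 : ω (γ θ) (γ' θ) = ω x v + A * (1 - 6 * θ + 6 * θ ^ 2) * ω x e
        + B * (1 - 12 * θ + 30 * θ ^ 2 - 20 * θ ^ 3) * ω x f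
        + A * (θ * (1 - 6 * θ + 6 * θ ^ 2) - (θ - 3 * θ ^ 2 + 2 * θ ^ 3)) * ω v e
        + B * (θ * (1 - 12 * θ + 30 * θ ^ 2 - 20 * θ ^ 3)
          - (θ - 6 * θ ^ 2 + 10 * θ ^ 3 - 5 * θ ^ 4)) * ω v f
        + A * B * ((θ - 3 * θ ^ 2 + 2 * θ ^ 3) * (1 - 12 * θ + 30 * θ ^ 2 - 20 * θ ^ 3)
          - (θ - 6 * θ ^ 2 + 10 * θ ^ 3 - 5 * θ ^ 4) * (1 - 6 * θ + 6 * θ ^ 2)) * ω e f := by
      rw [hγ, hγ']
      simp only [map_add, map_smul, add_apply, smul_apply, smul_eq_mul, hself]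
      rw [hanti e v, hanti f v, hanti f e]
      ring
    rw [e1, hz]
    have p : ∀ n : ℕ, HasDerivAt (fun θ : ℝ => θ ^ n) (n * θ ^ (n - 1)) θ := fun n => hasDerivAt_pow n θ
    have i : HasDerivAt (fun θ : ℝ => θ) 1 θ := hasDerivAt_id θ
    have q1 : HasDerivAt (fun θ : ℝ => θ - 3 * θ ^ 2 + 2 * θ ^ 3) (1 - 6 * θ + 6 * θ ^ 2) θ := by
      convert! (i.sub ((p 2).const_mul 3)).add ((p 3).const_mul 2) using 1
      norm_num; ring
    have q2 : HasDerivAt (fun θ : ℝ => θ - 6 * θ ^ 2 + 10 * θ ^ 3 - 5 * θ ^ 4)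
        (1 - 12 * θ + 30 * θ ^ 2 - 20 * θ ^ 3) θ := by
      convert! ((i.sub ((p 2).const_mul 6)).add ((p 3).const_mul 10)).sub ((p 4).const_mul 5) using 1
      norm_num; ring
    have r1 : HasDerivAt (fun θ : ℝ => 2 * (θ ^ 2 / 2 - θ ^ 3 + θ ^ 4 / 2))
        (2 * (θ - 3 * θ ^ 2 + 2 * θ ^ 3)) θ := by
      convert! ((((p 2).div_const 2).sub (p 3)).add ((p 4).div_const 2)).const_mul 2 using 1
      norm_num; ring
    have r2 : HasDerivAt (fun θ : ℝ => 2 * (θ ^ 2 / 2 - 2 * θ ^ 3 + 5 / 2 * θ ^ 4 - θ ^ 5))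
        (2 * (θ - 6 * θ ^ 2 + 10 * θ ^ 3 - 5 * θ ^ 4)) θ := by
      convert! (((((p 2).div_const 2).sub ((p 3).const_mul 2)).add ((p 4).const_mul (5 / 2))).sub
        (p 5)).const_mul 2 using 1
      norm_num; ring
    have r3 : HasDerivAt (fun θ : ℝ => - θ ^ 3 + 4 * θ ^ 4 - 33 / 5 * θ ^ 5 + 5 * θ ^ 6 - 10 / 7 * θ ^ 7)
        (- 3 * θ ^ 2 + 16 * θ ^ 3 - 33 * θ ^ 4 + 30 * θ ^ 5 - 10 * θ ^ 6) θ := by
      convert! (((((p 3).neg).add ((p 4).const_mul 4)).sub ((p 5).const_mul (33 / 5))).add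
        ((p 6).const_mul 5)).sub ((p 7).const_mul (10 / 7)) using 1
      norm_num; ring
    have t0 : HasDerivAt (fun θ : ℝ => s + ω x v * θ) (ω x v * 1) θ := (i.const_mul (ω x v)).const_add s
    have t1 := (q1.const_mul A).mul_const (ω x e)
    have t2 := (q2.const_mul B).mul_const (ω x f)
    have t3 := (((i.mul q1).sub r1).const_mul A).mul_const (ω v e)
    have t4 := (((i.mul q2).sub r2).const_mul B).mul_const (ω v f)
    have t5 := (r3.const_mul (A * B)).mul_const (ω e f)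
    convert! ((((t0.add t1).add t2).add t3).add t4).add t5 using 1
    ring
  have hhor : IsHorizontal ω γ z := by
    refine ⟨?_, ?_, ?_⟩
    · have hc : ContDiffOn ℝ 1 γ (Icc 0 1) := by
        apply ContDiff.contDiffOn
        rw [hγ]
        fun_prop
      exact hc.exists_lipschitzOnWith (by decide) (convex_Icc _ _) isCompact_Icc
    · have hc : ContDiffOn ℝ 1 z (Icc 0 1) := by
        apply ContDiff.contDiffOn
        rw [hz]
        fun_prop
      exact hc.exists_lipschitzOnWith (by decide) (convex_Icc _ _) isCompact_Icc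
    · apply Eventually.of_forall
      intro θ
      refine ⟨(hγd θ).differentiableAt, ?_⟩
      rw [(hγd θ).deriv]
      exact hzd θ
  have h0 : (γ 0, z 0) = (x, s) := by
    rw [hγ, hz]
    simp
  have h1 : (γ 1, z 1) = (y, t) := by
    have e1 : γ 1 = y := by
      rw [hγ]
      norm_num
      rw [hv]
      abel
    have e2 : z 1 = t := by
      rw [hz]
      simp only
      rw [hef, hAB, hτ]
      unfold vert
      simp only
      have : ω x v = ω x y := by rw [hv, map_sub, hself, sub_zero]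
      rw [this]
      ring
    rw [e1, e2]
  have hle : dcc ω (x, s) (y, t) ≤ eVariationOn γ (Icc 0 1) :=
    iInf_le (fun c : {c : (ℝ → X) × (ℝ → ℝ) // IsHorizontal ω c.1 c.2 ∧
      (c.1 0, c.2 0) = (x, s) ∧ (c.1 1, c.2 1) = (y, t)} => eVariationOn c.1.1 (Icc 0 1))
      ⟨(γ, z), hhor, h0, h1⟩
  refine hle.trans ?_
  set C : ℝ := ‖v‖ + (13 * ‖e‖ + 63 * ‖f‖) * A with hC
  have hC0 : 0 ≤ C := by positivity
  have hlip : LipschitzOnWith (Real.toNNReal C) γ (Icc 0 1) := by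
    apply (convex_Icc (0 : ℝ) 1).lipschitzOnWith_of_nnnorm_hasDerivWithin_le
      (fun θ _ => (hγd θ).hasDerivWithinAt)
    intro θ hθ
    rw [← NNReal.coe_le_coe, coe_nnnorm, Real.coe_toNNReal _ hC0, hγ']
    simp only
    have b1 : |1 - 6 * θ + 6 * θ ^ 2| ≤ 13 := by
      rw [abs_le]
      constructor <;> nlinarith [hθ.1, hθ.2, mul_nonneg hθ.1 hθ.1]
    have b2 : |1 - 12 * θ + 30 * θ ^ 2 - 20 * θ ^ 3| ≤ 63 := by
      have hsq : θ ^ 2 ≤ 1 := pow_le_one₀ hθ.1 hθ.2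
      have hcb : θ ^ 3 ≤ 1 := pow_le_one₀ hθ.1 hθ.2
      have hsq0 : 0 ≤ θ ^ 2 := by positivity
      have hcb0 : 0 ≤ θ ^ 3 := pow_nonneg hθ.1 3
      rw [abs_le]
      constructor <;> nlinarith [hθ.1, hθ.2]
    calc ‖v + (A * (1 - 6 * θ + 6 * θ ^ 2)) • e + (B * (1 - 12 * θ + 30 * θ ^ 2 - 20 * θ ^ 3)) • f‖
        ≤ ‖v‖ + ‖(A * (1 - 6 * θ + 6 * θ ^ 2)) • e‖
          + ‖(B * (1 - 12 * θ + 30 * θ ^ 2 - 20 * θ ^ 3)) • f‖ := norm_add₃_le
      _ = ‖v‖ + A * |1 - 6 * θ + 6 * θ ^ 2| * ‖e‖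
          + |B| * |1 - 12 * θ + 30 * θ ^ 2 - 20 * θ ^ 3| * ‖f‖ := by
          rw [norm_smul, norm_smul, Real.norm_eq_abs, Real.norm_eq_abs, abs_mul, abs_mul,
            abs_of_nonneg hA0]
      _ ≤ ‖v‖ + A * 13 * ‖e‖ + A * 63 * ‖f‖ := by gcongr
      _ = C := by rw [hC]; ring
  have h5 := evar_le_of_lipschitz hlip (s := 0) (t := 1) (by simp) (by simp)
  rw [inter_self, sub_zero, ENNReal.ofReal_one, mul_one] at h5
  exact h5

/-- The main theorem. -/
theorem main {p : ℝ} (hp : 1 < p) (hβ : HasBeta X p) (ω : X →L[ℝ] X →L[ℝ] ℝ)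
    (hanti : ∀ x y, ω x y = - ω y x) (hne : ω ≠ 0) :
    ∃ d : X × ℝ → X × ℝ → NNReal, IsEquivQuasiMetric ω d ∧ SatisfiesUmbel p d := by
  have hp0 : 0 < p := by linarith
  obtain ⟨c, hc, hβ'⟩ := hβ.betaIneq
  obtain ⟨κ, hκ0, hκ⟩ := banach_umbel hc hp hβ'
  -- choice of the scaling parameter
  set l : ℝ := min 1 (1 / (‖ω‖ + 1)) with hl
  have hlpos : 0 < l := by positivity
  have hl1 : l ≤ 1 := min_le_left _ _
  have hlω : l ^ 2 * ‖ω‖ ≤ 2 := by
    have h1 : l ≤ 1 / (‖ω‖ + 1) := min_le_right _ _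
    have h2 : l ^ 2 ≤ l := by nlinarith
    calc l ^ 2 * ‖ω‖ ≤ (1 / (‖ω‖ + 1)) * ‖ω‖ := by gcongr; linarith
      _ ≤ 1 := by
          rw [one_div_mul_eq_div, div_le_one (by positivity)]
          linarith
      _ ≤ 2 := by norm_num
  -- vectors with `ω e f = -35`
  obtain ⟨e, f, hef⟩ : ∃ e f : X, ω e f = -35 := by
    by_contra hcon
    push Not at hcon
    apply hne
    ext u v
    simp only [zero_apply]
    by_contra hne'
    apply hcon ((-35 / ω u v) • u) v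
    rw [map_smul, smul_apply, smul_eq_mul]
    field_simp
  set C₁ : ℝ := 1 + (13 * ‖e‖ + 63 * ‖f‖) / l with hC₁
  have hC₁1 : 1 ≤ C₁ := by
    rw [hC₁]
    have : 0 ≤ (13 * ‖e‖ + 63 * ‖f‖) / l := by positivity
    linarith
  have hdccN : ∀ g h, dcc ω g h ≤ ENNReal.ofReal (C₁ * Nn l ω g h) := by
    intro g h
    refine (dcc_le hanti hef g h).trans (ENNReal.ofReal_le_ofReal ?_)
    have h1 : ‖h.1 - g.1‖ ≤ Nn l ω g h := le_max_left _ _
    have h2 : l * √|vert ω g h| ≤ Nn l ω g h := le_max_right _ _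
    have h3 : √|vert ω g h| ≤ Nn l ω g h / l := by
      rw [le_div_iff₀ hlpos]; linarith
    calc ‖h.1 - g.1‖ + (13 * ‖e‖ + 63 * ‖f‖) * √|vert ω g h|
        ≤ Nn l ω g h + (13 * ‖e‖ + 63 * ‖f‖) * (Nn l ω g h / l) := by gcongr
      _ = C₁ * Nn l ω g h := by rw [hC₁]; field_simp
  -- the quasi-metric
  set ρ : X × ℝ → X × ℝ → ℝ := fun g h => (Dp p l ω g h) ^ (1 / p) with hρ
  have hρ0 : ∀ g h, 0 ≤ ρ g h := by
    intro g h
    have := Dp_nonneg p l ω g h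
    rw [hρ]; positivity
  have hρp : ∀ g h, ρ g h ^ p = Dp p l ω g h := by
    intro g h
    rw [hρ]
    simp only
    rw [← Real.rpow_mul (Dp_nonneg _ _ _ _ _), one_div_mul_cancel hp0.ne', Real.rpow_one]
  have hρN : ∀ g h, Nn l ω g h ≤ ρ g h := by
    intro g h
    have h1 : Nn l ω g h ^ p ≤ ρ g h ^ p := by
      rw [hρp]
      unfold Dp
      have : 0 ≤ ‖h.1 - g.1‖ ^ p := by positivity
      linarith
    exact (Real.rpow_le_rpow_iff (Nn_nonneg _ _ _ _) (hρ0 g h) hp0).mp h1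
  have hρN2 : ∀ g h, ρ g h ≤ 2 * Nn l ω g h := by
    intro g h
    have hN0 := Nn_nonneg l ω g h
    have h1 : ρ g h ^ p ≤ (2 * Nn l ω g h) ^ p := by
      rw [hρp, Real.mul_rpow (by norm_num) hN0]
      unfold Dp
      have h2 : ‖h.1 - g.1‖ ^ p ≤ Nn l ω g h ^ p :=
        Real.rpow_le_rpow (norm_nonneg _) (le_max_left _ _) hp0.le
      have h3 : (2 : ℝ) ≤ 2 ^ p := by
        calc (2 : ℝ) = 2 ^ (1 : ℝ) := (Real.rpow_one _).symm
          _ ≤ 2 ^ p := Real.rpow_le_rpow_of_exponent_le (by norm_num) hp.le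
      have h4 : 0 ≤ Nn l ω g h ^ p := by positivity
      nlinarith
    exact (Real.rpow_le_rpow_iff (hρ0 g h) (by positivity) hp0).mp h1
  refine ⟨fun g h => Real.toNNReal (ρ g h), ⟨?_, ?_⟩, ?_⟩
  · intro g h
    have : ρ g h = ρ h g := by rw [hρ]; simp only; rw [Dp_symm hanti]
    exact congrArg Real.toNNReal this
  · refine ⟨Real.toNNReal (1 / C₁), 4, ?_, ?_, ?_⟩
    · rw [Real.toNNReal_pos]; positivity
    · rw [Real.toNNReal_le_iff_le_coe]
      have : 1 / C₁ ≤ 1 := by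
        rw [div_le_one (by linarith)]; exact hC₁1
      refine this.trans ?_
      norm_num
    · intro g h
      constructor
      · show ENNReal.ofReal (1 / C₁) * dcc ω g h ≤ ENNReal.ofReal (ρ g h)
        calc ENNReal.ofReal (1 / C₁) * dcc ω g h
            ≤ ENNReal.ofReal (1 / C₁) * ENNReal.ofReal (C₁ * Nn l ω g h) := by
              gcongr; exact hdccN g h
          _ = ENNReal.ofReal (Nn l ω g h) := by
              rw [← ENNReal.ofReal_mul (by positivity)]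
              congr 1
              field_simp
          _ ≤ ENNReal.ofReal (ρ g h) := ENNReal.ofReal_le_ofReal (hρN g h)
      · show ENNReal.ofReal (ρ g h) ≤ ((4 : NNReal) : ENNReal) * dcc ω g h
        calc ENNReal.ofReal (ρ g h) ≤ ENNReal.ofReal (2 * Nn l ω g h) :=
              ENNReal.ofReal_le_ofReal (hρN2 g h)
          _ = 2 * ENNReal.ofReal (Nn l ω g h) := by
              rw [ENNReal.ofReal_mul (by norm_num)]; simp
          _ ≤ 2 * (2 * dcc ω g h) := by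
              gcongr
              exact Nn_le_dcc hlpos hanti hlω g h
          _ = ((4 : NNReal) : ENNReal) * dcc ω g h := by
              rw [← mul_assoc]
              norm_num
  · refine ⟨Real.toNNReal ((2 / κ) ^ (1 / p)), ?_, ?_⟩
    · rw [Real.toNNReal_pos]; positivity
    · intro w z x
      have hpow : ∀ g h, ((Real.toNNReal (ρ g h) : NNReal) : ENNReal) ^ p
          = ENNReal.ofReal (Dp p l ω g h) := by
        intro g h
        show (ENNReal.ofReal (ρ g h)) ^ p = _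
        rw [ENNReal.ofReal_rpow_of_nonneg (hρ0 g h) hp0.le, hρp]
      simp only [hpow]
      have h2 : (1 / (2 : ENNReal) ^ p) = ENNReal.ofReal (1 / 2 ^ p) := by
        rw [ENNReal.ofReal_div_of_pos (by positivity), ENNReal.ofReal_one,
          ← ENNReal.ofReal_rpow_of_pos (by norm_num)]
        simp
      have hK : (1 / ((Real.toNNReal ((2 / κ) ^ (1 / p)) : NNReal) : ENNReal) ^ p)
          = ENNReal.ofReal (κ / 2) := by
        have e1 : ((Real.toNNReal ((2 / κ) ^ (1 / p)) : NNReal) : ENNReal) ^ p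
            = ENNReal.ofReal (2 / κ) := by
          show (ENNReal.ofReal ((2 / κ) ^ (1 / p))) ^ p = _
          rw [ENNReal.ofReal_rpow_of_nonneg (by positivity) hp0.le, ← Real.rpow_mul (by positivity),
            one_div_mul_cancel hp0.ne', Real.rpow_one]
        rw [e1, ← ENNReal.ofReal_one, ← ENNReal.ofReal_div_of_pos (by positivity)]
        congr 1
        field_simp
      rw [h2, hK]
      exact umbel_main hc hp hβ' hκ0 hκ hanti hlpos hlω w z x

end Pool.Agent.Lib.MP_f1e800_an
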