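import Mathlib

set_option autoImplicit false

open Filter MeasureTheory Set

namespace Pool.Agent.Lib.MP_f1e800_an

section Beta

variable {X : Type*} [NormedAddCommGroup X]

/-- The separation `inf_{m ≠ n} ‖u m - u n‖` of a sequence. -/
noncomputable def sep (u : ℕ → X) : ℝ :=
  ⨅ q : {q : ℕ × ℕ // q.1 ≠ q.2}, ‖u q.1.1 - u q.1.2‖

/-- Rolewicz's modulus: `1 - sup { inf_n ‖(x + u n)/2‖ }`, the supremum being over all `x` and all
sequences `u` in the unit ball with `sep u ≥ t`. -/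
noncomputable def betaBar (X : Type*) [NormedAddCommGroup X] [NormedSpace ℝ X] (t : ℝ) : ℝ :=
  1 - sSup {a : ℝ | ∃ (x : X) (u : ℕ → X), ‖x‖ ≤ 1 ∧ (∀ n, ‖u n‖ ≤ 1) ∧ t ≤ sep u ∧
    a = ⨅ n, ‖(2⁻¹ : ℝ) • (x + u n)‖}

/-- Property `(β_p)`: the modulus is at least `c t ^ p` on `(0, 2]` for some `c > 0`. -/
def HasBeta (X : Type*) [NormedAddCommGroup X] [NormedSpace ℝ X] (p : ℝ) : Prop :=
  ∃ c : ℝ, 0 < c ∧ ∀ t : ℝ, 0 < t → t ≤ 2 → c * t ^ p ≤ betaBar X t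

end Beta

section Heisenberg

variable {X : Type*} [NormedAddCommGroup X] [NormedSpace ℝ X]

/-- Horizontal curves in the Heisenberg group over `(X, ω)`: pairs of Lipschitz maps
`γ : [0,1] → X`, `z : [0,1] → ℝ` with `γ` differentiable a.e. and `z' = ω(γ, γ')` a.e.
(values outside `[0,1]` are irrelevant). -/
structure IsHorizontal (ω : X →L[ℝ] X →L[ℝ] ℝ) (γ : ℝ → X) (z : ℝ → ℝ) : Prop where
  lipschitz_fst : ∃ K : NNReal, LipschitzOnWith K γ (Icc 0 1)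
  lipschitz_snd : ∃ K : NNReal, LipschitzOnWith K z (Icc 0 1)
  ae_deriv : ∀ᵐ t ∂(volume.restrict (Icc (0 : ℝ) 1)),
    DifferentiableAt ℝ γ t ∧ HasDerivAt z (ω (γ t) (deriv γ t)) t

/-- The Carnot-Caratheodory distance on `X × ℝ`: the infimum (in `[0, ∞]`) of the lengths of
`γ` over all horizontal curves `(γ, z)` from `g` to `h`. -/
noncomputable def dcc (ω : X →L[ℝ] X →L[ℝ] ℝ) (g h : X × ℝ) : ENNReal :=
  ⨅ c : {c : (ℝ → X) × (ℝ → ℝ) // IsHorizontal ω c.1 c.2 ∧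
    (c.1 0, c.2 0) = g ∧ (c.1 1, c.2 1) = h}, eVariationOn c.1.1 (Icc 0 1)

/-- Quasi-metrics on the Heisenberg group equivalent to the Carnot-Caratheodory distance. -/
def IsEquivQuasiMetric (ω : X →L[ℝ] X →L[ℝ] ℝ) (d : X × ℝ → X × ℝ → NNReal) : Prop :=
  (∀ g h, d g h = d h g) ∧ ∃ c C : NNReal, 0 < c ∧ c ≤ C ∧
    ∀ g h, (c : ENNReal) * dcc ω g h ≤ (d g h : ENNReal) ∧
      (d g h : ENNReal) ≤ (C : ENNReal) * dcc ω g h

end Heisenberg

/-- The `p`-umbel inequality for a (quasi-)metric `d` on a set `M`. -/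
def SatisfiesUmbel {M : Type*} (p : ℝ) (d : M → M → NNReal) : Prop :=
  ∃ K : NNReal, 0 < K ∧ ∀ (w z : M) (x : ℕ → M),
    (1 / (2 : ENNReal) ^ p) * (⨅ n, (d w (x n) : ENNReal) ^ p)
      + (1 / (K : ENNReal) ^ p) * (⨅ i, liminf (fun j => (d (x i) (x j) : ENNReal) ^ p) atTop)
      ≤ (1 / 2) * (d w z : ENNReal) ^ p + (1 / 2) * (⨆ n, (d (x n) z : ENNReal) ^ p)

end Pool.Agent.Lib.MP_f1e800_an
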