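import Pool.Agent.Lib.MP_f1e800_an.Banach

set_option autoImplicit false

open Filter Set

namespace Pool.Agent.Lib.MP_f1e800_an

variable {X : Type*} [NormedAddCommGroup X] [NormedSpace ℝ X]

/-- In a space with `(β_p)` there is no bounded sequence with `ω (b i) (b j) ≥ κ > 0` for `i < j`. -/
lemma omega_pairs {c p : ℝ} (hc : 0 < c) (hp : 1 < p) (hβ : BetaIneq X c p)
    (ω : X →L[ℝ] X →L[ℝ] ℝ) (hanti : ∀ x y, ω x y = - ω y x) (b : ℕ → X) {M : ℝ}
    (hM : ∀ n, ‖b n‖ ≤ M) {κ : ℝ} (hκ : 0 < κ) (hb : ∀ i j, i < j → κ ≤ ω (b i) (b j)) : False := by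
  have hself : ∀ x, ω x x = 0 := by
    intro x
    have := hanti x x
    linarith
  set C : ℕ → Set X := fun k => convexHull ℝ {v | ∃ j, k ≤ j ∧ b j = v} with hC
  have hCne : ∀ k, (C k).Nonempty := fun k => ⟨b k, subset_convexHull ℝ _ ⟨k, le_rfl, rfl⟩⟩
  have hCanti : ∀ k m, k ≤ m → C m ⊆ C k := by
    intro k m hkm
    apply convexHull_mono
    rintro v ⟨j, hj, rfl⟩
    exact ⟨j, hkm.trans hj, rfl⟩
  have hCconv : ∀ k, Convex ℝ (C k) := fun k => convex_convexHull ℝ _
  -- half spaces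
  have hhalf : ∀ x : X, Convex ℝ {v : X | κ ≤ ω x v} := by
    intro x
    intro u hu v hv s t hs ht hst
    simp only [mem_ofPred_eq, map_add, map_smul, smul_eq_mul] at hu hv ⊢
    nlinarith
  have htail : ∀ j, ∀ v ∈ C (j + 1), κ ≤ ω (b j) v := by
    intro j v hv
    have h1 : C (j + 1) ⊆ {v : X | κ ≤ ω (b j) v} := by
      apply convexHull_min _ (hhalf (b j))
      rintro w ⟨i, hi, rfl⟩
      exact hb j i (by omega)
    exact h1 hv
  have hkey : ∀ k, ∀ u ∈ C k, ∃ m, ∀ v ∈ C m, κ ≤ ω u v := by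
    intro k u hu
    have h1 : C k ⊆ {u : X | ∃ m, ∀ v ∈ C m, κ ≤ ω u v} := by
      apply convexHull_min
      · rintro w ⟨i, hi, rfl⟩
        exact ⟨i + 1, htail i⟩
      · rintro u₁ ⟨m₁, h₁⟩ u₂ ⟨m₂, h₂⟩ s t hs ht hst
        refine ⟨max m₁ m₂, ?_⟩
        intro v hv
        have e1 := h₁ v (hCanti _ _ (le_max_left _ _) hv)
        have e2 := h₂ v (hCanti _ _ (le_max_right _ _) hv)
        simp only [map_add, map_smul, add_apply, smul_apply,
          smul_eq_mul]
        nlinarith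
    exact h1 hu
  -- distances
  set d : ℕ → ℝ := fun k => Metric.infDist 0 (C k) with hd
  have hdM : ∀ k, d k ≤ M := by
    intro k
    refine (Metric.infDist_le_dist_of_mem (subset_convexHull ℝ _ ⟨k, le_rfl, rfl⟩ : b k ∈ C k)).trans ?_
    rw [dist_zero_left]
    exact hM k
  have hbdd : BddAbove (Set.range d) := ⟨M, by rintro _ ⟨k, rfl⟩; exact hdM k⟩
  set D : ℝ := ⨆ k, d k with hD
  have hdD : ∀ k, d k ≤ D := fun k => le_ciSup hbdd k
  have hDpos : 0 < D := by
    refine lt_of_lt_of_le ?_ (hdD 1)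
    have h0 : 0 < ‖ω (b 0)‖ := by
      rw [norm_pos_iff]
      intro h
      have := hb 0 1 (by norm_num)
      rw [h] at this
      simp at this
      linarith
    have h1 : κ / ‖ω (b 0)‖ ≤ d 1 := by
      rw [hd]
      simp only
      rw [Metric.le_infDist (hCne 1)]
      intro u hu
      rw [dist_zero_left, div_le_iff₀ h0]
      have h2 := htail 0 u hu
      have h3 := (ω (b 0)).le_opNorm u
      have h4 := Real.le_norm_self ((ω (b 0)) u)
      linarith
    exact lt_of_lt_of_le (by positivity) h1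
  set W : ℝ := ‖ω‖ with hW
  have hWpos : 0 < W := by
    by_contra hneg
    have h0 : W = 0 := le_antisymm (not_lt.mp hneg) (norm_nonneg ω)
    have h1 := hb 0 1 (by norm_num)
    have h2 := ω.le_opNorm₂ (b 0) (b 1)
    have h3 := Real.le_norm_self (ω (b 0) (b 1))
    rw [← hW, h0, zero_mul, zero_mul] at h2
    linarith
  set t₀ : ℝ := κ / (4 * W * D ^ 2) with ht₀
  have ht₀pos : 0 < t₀ := by positivity
  set q : ℝ := c * t₀ ^ p with hq
  have hqpos : 0 < q := by positivity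
  set η : ℝ := min (1 / 2) (q / 4) with hη
  have hηpos : 0 < η := by positivity
  have hη1 : η ≤ 1 / 2 := min_le_left _ _
  have hηq : η ≤ q / 4 := min_le_right _ _
  obtain ⟨k, hk⟩ : ∃ k, (1 - η) * D < d k := by
    apply exists_lt_of_lt_ciSup
    rw [← hD]
    nlinarith
  -- the block sequence
  obtain ⟨f, hfP, hfr⟩ := exists_seq_of_forall_finset_exists
    (fun u : X => u ∈ C k ∧ ‖u‖ < (1 + η) * D) (fun u v : X => κ ≤ ω u v) (by
    intro s hs
    have hch : ∀ x : X, ∃ m, x ∈ s → ∀ v ∈ C m, κ ≤ ω x v := by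
      intro x
      by_cases hx : x ∈ s
      · obtain ⟨m, hm⟩ := hkey k x (hs x hx).1
        exact ⟨m, fun _ => hm⟩
      · exact ⟨0, fun h => absurd h hx⟩
    choose mf hmf using hch
    set m := k + ∑ x ∈ s, mf x with hm
    have hlt : Metric.infDist 0 (C m) < (1 + η) * D := by
      refine lt_of_le_of_lt (hdD m) ?_
      nlinarith
    rw [Metric.infDist_lt_iff (hCne m)] at hlt
    obtain ⟨v, hv, hvlt⟩ := hlt
    rw [dist_zero_left] at hvlt
    refine ⟨v, ⟨hCanti k m (by omega) hv, hvlt⟩, ?_⟩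
    intro x hx
    apply hmf x hx v
    apply hCanti _ _ _ hv
    have : mf x ≤ ∑ x ∈ s, mf x := Finset.single_le_sum (f := mf) (fun _ _ => Nat.zero_le _) hx
    omega)
  have hRpos : 0 < (1 + η) * D := by positivity
  have hR2 : (1 + η) * D ≤ 2 * D := by nlinarith
  set R : ℝ := (1 + η) * D with hR
  have hsep' : ∀ m n, m < n → κ / (W * (2 * D)) ≤ ‖f n - f m‖ := by
    intro m n hmn
    rw [div_le_iff₀ (by positivity)]
    have h1 := hfr m n hmn
    have h2 : ω (f m) (f n) = ω (f m) (f n - f m) := by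
      rw [map_sub, hself, sub_zero]
    rw [h2] at h1
    have h3 := (ω (f m)).le_opNorm (f n - f m)
    have h4 := Real.le_norm_self ((ω (f m)) (f n - f m))
    have h5 : ‖ω (f m)‖ ≤ W * (2 * D) := by
      refine (ω.le_opNorm (f m)).trans ?_
      apply mul_le_mul_of_nonneg_left _ hWpos.le
      exact (hfP m).2.le.trans hR2
    have h6 : ‖ω (f m)‖ * ‖f n - f m‖ ≤ W * (2 * D) * ‖f n - f m‖ :=
      mul_le_mul_of_nonneg_right h5 (norm_nonneg _)
    linarith
  have hsep : ∀ m n, m ≠ n → κ / (W * (2 * D)) ≤ ‖f m - f n‖ := by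
    intro m n hmn
    rcases lt_or_gt_of_ne hmn with h | h
    · rw [norm_sub_rev]; exact hsep' m n h
    · exact hsep' n m h
  have hfin := hβ R hRpos (f 0) f (hfP 0).2.le (fun n => (hfP n).2.le) (κ / (W * (2 * D)))
    (by positivity) hsep (2 * ((1 - η) * D)) (by
    intro n
    have h1 : (2⁻¹ : ℝ) • (f 0 + f n) ∈ C k := by
      rw [smul_add]
      exact (hCconv k) (hfP 0).1 (hfP n).1 (by norm_num) (by norm_num) (by norm_num)
    have h2 := Metric.infDist_le_dist_of_mem (x := (0 : X)) h1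
    rw [dist_zero_left, norm_smul, Real.norm_of_nonneg (by norm_num)] at h2
    have h3 : (1 - η) * D < 2⁻¹ * ‖f 0 + f n‖ := lt_of_lt_of_le hk h2
    linarith)
  have ht : t₀ ≤ κ / (W * (2 * D)) / R := by
    rw [ht₀, div_div]
    apply div_le_div_of_nonneg_left hκ.le (by positivity)
    calc W * (2 * D) * R ≤ W * (2 * D) * (2 * D) := by gcongr
      _ = 4 * W * D ^ 2 := by ring
  have hq1 : q ≤ c * (κ / (W * (2 * D)) / R) ^ p := by
    rw [hq]
    apply mul_le_mul_of_nonneg_left _ hc.le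
    exact Real.rpow_le_rpow ht₀pos.le ht (by linarith)
  have h7 : (1 - η) * D ≤ (1 + η) * D * (1 - q) := by
    calc (1 - η) * D = 2 * ((1 - η) * D) / 2 := by ring
      _ ≤ R * (1 - c * (κ / (W * (2 * D)) / R) ^ p) := hfin
      _ ≤ (1 + η) * D * (1 - q) := by
        apply mul_le_mul_of_nonneg_left _ hRpos.le
        linarith
  have h8 : (1 - η) ≤ (1 + η) * (1 - q) := by
    have : (1 - η) * D ≤ ((1 + η) * (1 - q)) * D := by linarith
    exact le_of_mul_le_mul_right this hDpos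
  nlinarith

/-- The iterated ultrafilter limit of `ω (b i) (b j)` vanishes. -/
lemma omega_lim {c p : ℝ} (hc : 0 < c) (hp : 1 < p) (hβ : BetaIneq X c p)
    (ω : X →L[ℝ] X →L[ℝ] ℝ) (hanti : ∀ x y, ω x y = - ω y x) (b : ℕ → X) {M : ℝ}
    (hM : ∀ n, ‖b n‖ ≤ M) (U : Ultrafilter ℕ) (L : ℕ → ℝ) (L' : ℝ)
    (hL : ∀ i, Tendsto (fun j => ω (b i) (b j)) U (nhds (L i))) (hL' : Tendsto L U (nhds L')) :
    L' = 0 := by
  -- first the positive case for an arbitrary form
  have key : ∀ (ω' : X →L[ℝ] X →L[ℝ] ℝ) (_ : ∀ x y, ω' x y = - ω' y x) (F : ℕ → ℝ) (F' : ℝ)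
      (_ : ∀ i, Tendsto (fun j => ω' (b i) (b j)) U (nhds (F i))) (_ : Tendsto F U (nhds F')),
      ¬ (0 < F') := by
    intro ω' hanti' F F' hF hF' hpos
    obtain ⟨φ, hφP, hφr⟩ := exists_seq_of_forall_finset_exists
      (fun i : ℕ => F' / 2 < F i) (fun i j : ℕ => F' / 2 ≤ ω' (b i) (b j)) (by
      intro s hs
      have h1 : ∀ᶠ j in (U : Filter ℕ), F' / 2 < F j := hF'.eventually (lt_mem_nhds (by linarith))
      have h2 : ∀ᶠ j in (U : Filter ℕ), ∀ x ∈ s, F' / 2 < ω' (b x) (b j) := by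
        rw [Filter.eventually_all_finset]
        intro x hx
        exact (hF x).eventually (lt_mem_nhds (hs x hx))
      obtain ⟨y, hy1, hy2⟩ := (h1.and h2).exists
      exact ⟨y, hy1, fun x hx => (hy2 x hx).le⟩)
    exact omega_pairs hc hp hβ ω' hanti' (fun n => b (φ n)) (fun n => hM _)
      (by positivity : 0 < F' / 2) hφr
  rcases lt_trichotomy L' 0 with h | h | h
  · exfalso
    apply key (-ω) (by
      intro x y
      simp only [neg_apply]
      rw [hanti x y]) (fun i => - L i) (- L') _ (hL'.neg) (by linarith)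
    intro i
    exact (hL i).neg
  · exact h
  · exact absurd h (key ω hanti L L' hL hL')

end Pool.Agent.Lib.MP_f1e800_an
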