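import Pool.Agent.Lib.MP_f1e800_an.Omega

set_option autoImplicit false

open Filter Set

namespace Pool.Agent.Lib.MP_f1e800_an

variable {X : Type*} [NormedAddCommGroup X] [NormedSpace ℝ X]

/-- Vertical coordinate of `g⁻¹ * h`. -/
noncomputable def vert (ω : X →L[ℝ] X →L[ℝ] ℝ) (g h : X × ℝ) : ℝ := h.2 - g.2 - ω g.1 h.1

/-- The homogeneous metric `max (‖x‖, l √|s|)` evaluated at `g⁻¹ * h`. -/
noncomputable def Nn (l : ℝ) (ω : X →L[ℝ] X →L[ℝ] ℝ) (g h : X × ℝ) : ℝ :=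
  max ‖h.1 - g.1‖ (l * √|vert ω g h|)

lemma Nn_nonneg (l : ℝ) (ω : X →L[ℝ] X →L[ℝ] ℝ) (g h : X × ℝ) : 0 ≤ Nn l ω g h :=
  (norm_nonneg _).trans (le_max_left _ _)

lemma vert_symm {ω : X →L[ℝ] X →L[ℝ] ℝ} (hanti : ∀ x y, ω x y = - ω y x) (g h : X × ℝ) :
    vert ω g h = - vert ω h g := by
  unfold vert
  rw [hanti h.1 g.1]
  ring

lemma Nn_symm {l : ℝ} {ω : X →L[ℝ] X →L[ℝ] ℝ} (hanti : ∀ x y, ω x y = - ω y x) (g h : X × ℝ) :
    Nn l ω g h = Nn l ω h g := by
  unfold Nn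
  rw [norm_sub_rev, vert_symm hanti, abs_neg]

lemma sq_vert_le {l : ℝ} (hl : 0 ≤ l) (ω : X →L[ℝ] X →L[ℝ] ℝ) (g h : X × ℝ) :
    l ^ 2 * |vert ω g h| ≤ Nn l ω g h ^ 2 := by
  have h1 : l * √|vert ω g h| ≤ Nn l ω g h := le_max_right _ _
  have h2 : 0 ≤ l * √|vert ω g h| := by positivity
  calc l ^ 2 * |vert ω g h| = (l * √|vert ω g h|) ^ 2 := by
        rw [mul_pow, Real.sq_sqrt (abs_nonneg _)]
    _ ≤ _ := pow_le_pow_left₀ h2 h1 2

lemma Nn_triangle {l : ℝ} (hl : 0 ≤ l) {ω : X →L[ℝ] X →L[ℝ] ℝ}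
    (hanti : ∀ x y, ω x y = - ω y x) (hlω : l ^ 2 * ‖ω‖ ≤ 2) (g h k : X × ℝ) :
    Nn l ω g k ≤ Nn l ω g h + Nn l ω h k := by
  have hself : ∀ x, ω x x = 0 := by
    intro x
    have := hanti x x
    linarith
  have hN1 := Nn_nonneg l ω g h
  have hN2 := Nn_nonneg l ω h k
  apply max_le
  · have h1 : k.1 - g.1 = (h.1 - g.1) + (k.1 - h.1) := by abel
    rw [h1]
    refine (norm_add_le _ _).trans ?_
    exact add_le_add (le_max_left _ _) (le_max_left _ _)
  · have e1 : vert ω g k = vert ω g h + vert ω h k + ω (h.1 - g.1) (k.1 - h.1) := by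
      unfold vert
      simp only [map_sub, sub_apply, hself]
      ring
    have e2 : |vert ω g k| ≤ |vert ω g h| + |vert ω h k| + ‖ω‖ * ‖h.1 - g.1‖ * ‖k.1 - h.1‖ := by
      rw [e1]
      refine (abs_add_le _ _).trans ?_
      refine add_le_add (abs_add_le _ _) ?_
      exact ω.le_opNorm₂ _ _
    have e3 := sq_vert_le hl ω g h
    have e4 := sq_vert_le hl ω h k
    have e5 : l ^ 2 * (‖ω‖ * ‖h.1 - g.1‖ * ‖k.1 - h.1‖) ≤ 2 * Nn l ω g h * Nn l ω h k := by
      calc l ^ 2 * (‖ω‖ * ‖h.1 - g.1‖ * ‖k.1 - h.1‖)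
          = (l ^ 2 * ‖ω‖) * (‖h.1 - g.1‖ * ‖k.1 - h.1‖) := by ring
        _ ≤ 2 * (Nn l ω g h * Nn l ω h k) := by
          apply mul_le_mul hlω _ (by positivity) (by norm_num)
          exact mul_le_mul (le_max_left _ _) (le_max_left _ _) (norm_nonneg _) hN1
        _ = _ := by ring
    have e6 : l ^ 2 * |vert ω g k| ≤ (Nn l ω g h + Nn l ω h k) ^ 2 := by
      calc l ^ 2 * |vert ω g k|
          ≤ l ^ 2 * (|vert ω g h| + |vert ω h k| + ‖ω‖ * ‖h.1 - g.1‖ * ‖k.1 - h.1‖) :=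
            mul_le_mul_of_nonneg_left e2 (by positivity)
        _ = l ^ 2 * |vert ω g h| + l ^ 2 * |vert ω h k|
            + l ^ 2 * (‖ω‖ * ‖h.1 - g.1‖ * ‖k.1 - h.1‖) := by ring
        _ ≤ Nn l ω g h ^ 2 + Nn l ω h k ^ 2 + 2 * Nn l ω g h * Nn l ω h k := by linarith
        _ = _ := by ring
    have e7 : l * √|vert ω g k| = √(l ^ 2 * |vert ω g k|) := by
      rw [Real.sqrt_mul (by positivity), Real.sqrt_sq hl]
    rw [e7]
    refine (Real.sqrt_le_sqrt e6).trans (le_of_eq ?_)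
    exact Real.sqrt_sq (by positivity)

/-- The `p`-th power of the new quasi-metric. -/
noncomputable def Dp (p l : ℝ) (ω : X →L[ℝ] X →L[ℝ] ℝ) (g h : X × ℝ) : ℝ :=
  ‖h.1 - g.1‖ ^ p + Nn l ω g h ^ p

lemma Dp_nonneg (p l : ℝ) (ω : X →L[ℝ] X →L[ℝ] ℝ) (g h : X × ℝ) : 0 ≤ Dp p l ω g h := by
  unfold Dp
  have := Nn_nonneg l ω g h
  positivity

lemma Dp_symm {p l : ℝ} {ω : X →L[ℝ] X →L[ℝ] ℝ} (hanti : ∀ x y, ω x y = - ω y x) (g h : X × ℝ) :
    Dp p l ω g h = Dp p l ω h g := by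
  unfold Dp
  rw [norm_sub_rev, Nn_symm hanti]

lemma exists_lim (U : Ultrafilter ℕ) (f : ℕ → ℝ) {C : ℝ} (hf : ∀ n, |f n| ≤ C) :
    ∃ l : ℝ, |l| ≤ C ∧ Tendsto f U (nhds l) := by
  have hmem : Set.Icc (-C) C ∈ U.map f := by
    rw [Ultrafilter.mem_map]
    have : f ⁻¹' (Set.Icc (-C) C) = Set.univ := by
      ext n
      simp only [Set.mem_preimage, Set.mem_Icc, Set.mem_univ, iff_true]
      exact abs_le.mp (hf n)
    rw [this]
    exact Filter.univ_mem
  obtain ⟨l, hl, hle⟩ := (isCompact_Icc (a := -C) (b := C)).ultrafilter_le_nhds' (U.map f) hmem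
  exact ⟨l, abs_le.mpr hl, hle⟩

/-- The limit form of the umbel inequality in the Banach space. -/
lemma banach_limit {p κ : ℝ} (hp : 1 < p) (hκ : ∀ (a : X) (b : ℕ → X) (σ α β : ℝ), 0 ≤ σ → 0 ≤ α →
      (∀ n, ‖b n‖ ≤ β) → (∀ m n, m ≠ n → σ ≤ ‖b m - b n‖) → (∀ n, α ≤ ‖a + b n‖) →
      (α / 2) ^ p + κ * σ ^ p ≤ ‖a‖ ^ p / 2 + β ^ p / 2)
    (U : Ultrafilter ℕ) (a : X) (b : ℕ → X) {α β σ : ℝ} {s : ℕ → ℝ}
    (hα : Tendsto (fun n => ‖a + b n‖) U (nhds α)) (hβ : Tendsto (fun n => ‖b n‖) U (nhds β))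
    (hs : ∀ i, Tendsto (fun j => ‖b j - b i‖) U (nhds (s i))) (hσ : Tendsto s U (nhds σ)) :
    (α / 2) ^ p + κ * σ ^ p ≤ ‖a‖ ^ p / 2 + β ^ p / 2 := by
  have hp0 : 0 < p := by linarith
  have hα0 : 0 ≤ α := ge_of_tendsto' hα (fun n => norm_nonneg _)
  have hs0 : ∀ i, 0 ≤ s i := fun i => ge_of_tendsto' (hs i) (fun n => norm_nonneg _)
  have hσ0 : 0 ≤ σ := ge_of_tendsto' hσ (fun n => hs0 n)
  have hev : ∀ ε : ℝ, 0 < ε →
      (max (α - ε) 0 / 2) ^ p + κ * (max (σ - ε) 0) ^ p ≤ ‖a‖ ^ p / 2 + (β + ε) ^ p / 2 := by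
    intro ε hε
    obtain ⟨φ, hφP, hφr⟩ := exists_seq_of_forall_finset_exists
      (fun i : ℕ => α - ε < ‖a + b i‖ ∧ ‖b i‖ < β + ε ∧ σ - ε < s i)
      (fun i j : ℕ => σ - ε < ‖b j - b i‖) (by
      intro t ht
      have h1 : ∀ᶠ j in (U : Filter ℕ), α - ε < ‖a + b j‖ :=
        hα.eventually (lt_mem_nhds (by linarith))
      have h2 : ∀ᶠ j in (U : Filter ℕ), ‖b j‖ < β + ε :=
        hβ.eventually (gt_mem_nhds (by linarith))
      have h3 : ∀ᶠ j in (U : Filter ℕ), σ - ε < s j :=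
        hσ.eventually (lt_mem_nhds (by linarith))
      have h4 : ∀ᶠ j in (U : Filter ℕ), ∀ x ∈ t, σ - ε < ‖b j - b x‖ := by
        rw [Filter.eventually_all_finset]
        intro x hx
        exact (hs x).eventually (lt_mem_nhds (ht x hx).2.2)
      obtain ⟨y, hy1, hy2, hy3, hy4⟩ := (h1.and (h2.and (h3.and h4))).exists
      exact ⟨y, ⟨hy1, hy2, hy3⟩, hy4⟩)
    apply hκ a (fun n => b (φ n)) (max (σ - ε) 0) (max (α - ε) 0) (β + ε) (le_max_right _ _)
      (le_max_right _ _)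
    · intro n
      exact (hφP n).2.1.le
    · intro m n hmn
      apply max_le _ (norm_nonneg _)
      rcases lt_or_gt_of_ne hmn with h | h
      · rw [norm_sub_rev]; exact (hφr m n h).le
      · exact (hφr n m h).le
    · intro n
      exact max_le (hφP n).1.le (norm_nonneg _)
  have h1 : Tendsto (fun ε : ℝ => (max (α - ε) 0 / 2) ^ p + κ * (max (σ - ε) 0) ^ p)
      (nhdsWithin 0 (Set.Ioi 0)) (nhds ((α / 2) ^ p + κ * σ ^ p)) := by
    apply tendsto_nhdsWithin_of_tendsto_nhds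
    have hc : Continuous (fun ε : ℝ => (max (α - ε) 0 / 2) ^ p + κ * (max (σ - ε) 0) ^ p) := by
      apply Continuous.add
      · apply Continuous.rpow_const
        · fun_prop
        · intro x; right; exact hp0.le
      · apply Continuous.mul continuous_const
        apply Continuous.rpow_const
        · fun_prop
        · intro x; right; exact hp0.le
    have := hc.tendsto 0
    simp only [sub_zero, max_eq_left hα0, max_eq_left hσ0] at this
    exact this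
  have h2 : Tendsto (fun ε : ℝ => ‖a‖ ^ p / 2 + (β + ε) ^ p / 2)
      (nhdsWithin 0 (Set.Ioi 0)) (nhds (‖a‖ ^ p / 2 + β ^ p / 2)) := by
    apply tendsto_nhdsWithin_of_tendsto_nhds
    have hc : Continuous (fun ε : ℝ => ‖a‖ ^ p / 2 + (β + ε) ^ p / 2) := by
      apply Continuous.add continuous_const
      apply Continuous.div_const
      apply Continuous.rpow_const
      · fun_prop
      · intro x; right; exact hp0.le
    have := hc.tendsto 0
    simp only [add_zero] at this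
    exact this
  apply le_of_tendsto_of_tendsto h1 h2
  filter_upwards [self_mem_nhdsWithin] with ε hε
  exact hev ε hε

/-- The main inequality in `[0, ∞]`. -/
lemma umbel_main {c p κ l : ℝ} (hc : 0 < c) (hp : 1 < p) (hβ : BetaIneq X c p) (hκ0 : 0 < κ)
    (hκ : ∀ (a : X) (b : ℕ → X) (σ α β : ℝ), 0 ≤ σ → 0 ≤ α →
      (∀ n, ‖b n‖ ≤ β) → (∀ m n, m ≠ n → σ ≤ ‖b m - b n‖) → (∀ n, α ≤ ‖a + b n‖) →
      (α / 2) ^ p + κ * σ ^ p ≤ ‖a‖ ^ p / 2 + β ^ p / 2)
    {ω : X →L[ℝ] X →L[ℝ] ℝ} (hanti : ∀ x y, ω x y = - ω y x) (hl : 0 < l)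
    (hlω : l ^ 2 * ‖ω‖ ≤ 2) (w z : X × ℝ) (x : ℕ → X × ℝ) :
    ENNReal.ofReal (1 / 2 ^ p) * (⨅ n, ENNReal.ofReal (Dp p l ω w (x n)))
      + ENNReal.ofReal (κ / 2) * (⨅ i, liminf (fun j => ENNReal.ofReal (Dp p l ω (x i) (x j))) atTop)
      ≤ (1 / 2) * ENNReal.ofReal (Dp p l ω w z)
        + (1 / 2) * (⨆ n, ENNReal.ofReal (Dp p l ω (x n) z)) := by
  have hp0 : 0 < p := by linarith
  have hself : ∀ x, ω x x = 0 := by
    intro x
    have := hanti x x
    linarith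
  by_cases htop : (⨆ n, ENNReal.ofReal (Dp p l ω (x n) z)) = ⊤
  · rw [htop, ENNReal.mul_top (by norm_num), add_top]
    exact le_top
  -- bounded case
  set S := (⨆ n, ENNReal.ofReal (Dp p l ω (x n) z)) with hS
  have hDS : ∀ n, Dp p l ω (x n) z ≤ S.toReal := by
    intro n
    have h1 : ENNReal.ofReal (Dp p l ω (x n) z) ≤ S := le_iSup (fun n => ENNReal.ofReal (Dp p l ω (x n) z)) n
    have h2 := ENNReal.toReal_mono htop h1
    rwa [ENNReal.toReal_ofReal (Dp_nonneg _ _ _ _ _)] at h2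
  set R : ℝ := S.toReal ^ (1 / p) with hR
  have hS0 : 0 ≤ S.toReal := ENNReal.toReal_nonneg
  have hbR : ∀ n, Nn l ω z (x n) ≤ R := by
    intro n
    have h1 := hDS n
    rw [Dp_symm hanti] at h1
    unfold Dp at h1
    have h2 : 0 ≤ ‖(x n).1 - z.1‖ ^ p := by positivity
    have h3 : Nn l ω z (x n) ^ p ≤ S.toReal := by linarith
    have h4 := Real.rpow_le_rpow (by have := Nn_nonneg l ω z (x n); positivity) h3
      (by positivity : 0 ≤ 1 / p)
    rwa [← Real.rpow_mul (Nn_nonneg _ _ _ _), mul_one_div_cancel hp0.ne', Real.rpow_one] at h4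
  set b : ℕ → X := fun n => (x n).1 - z.1 with hb
  set τ : ℕ → ℝ := fun n => vert ω z (x n) with hτ
  set a : X := z.1 - w.1 with ha
  have hbn : ∀ n, ‖b n‖ ≤ R := fun n => (le_max_left _ _).trans (hbR n)
  have hR0 : 0 ≤ R := (norm_nonneg _).trans (hbn 0)
  have hτn : ∀ n, |τ n| ≤ R ^ 2 / l ^ 2 := by
    intro n
    rw [le_div_iff₀ (by positivity), mul_comm]
    refine (sq_vert_le hl.le ω z (x n)).trans ?_
    exact pow_le_pow_left₀ (Nn_nonneg _ _ _ _) (hbR n) 2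
  have hab : ∀ n, (x n).1 - w.1 = a + b n := by
    intro n; rw [ha, hb]; simp only; abel
  have hNw : ∀ n, Nn l ω w (x n) ≤ Nn l ω w z + R := by
    intro n
    exact (Nn_triangle hl.le hanti hlω w z (x n)).trans (by linarith [hbR n])
  -- the ultrafilter
  set U : Ultrafilter ℕ := Filter.hyperfilter ℕ with hU
  have hUle : (U : Filter ℕ) ≤ atTop := Nat.hyperfilter_le_atTop
  obtain ⟨lb, -, hlb⟩ := exists_lim U (fun n => ‖b n‖) (C := R) (by
    intro n; rw [abs_of_nonneg (norm_nonneg _)]; exact hbn n)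
  obtain ⟨lα, -, hlα⟩ := exists_lim U (fun n => ‖a + b n‖) (C := ‖a‖ + R) (by
    intro n; rw [abs_of_nonneg (norm_nonneg _)]
    exact (norm_add_le _ _).trans (by linarith [hbn n]))
  obtain ⟨lτ, -, hlτ⟩ := exists_lim U τ hτn
  obtain ⟨lμ, -, hlμ⟩ := exists_lim U (fun n => Nn l ω z (x n)) (C := R) (by
    intro n; rw [abs_of_nonneg (Nn_nonneg _ _ _ _)]; exact hbR n)
  obtain ⟨lν, -, hlν⟩ := exists_lim U (fun n => Nn l ω w (x n)) (C := Nn l ω w z + R) (by
    intro n; rw [abs_of_nonneg (Nn_nonneg _ _ _ _)]; exact hNw n)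
  have hex1 : ∀ i, ∃ s : ℝ, |s| ≤ 2 * R ∧ Tendsto (fun j => ‖b j - b i‖) U (nhds s) := by
    intro i
    apply exists_lim
    intro n; rw [abs_of_nonneg (norm_nonneg _)]
    exact (norm_sub_le _ _).trans (by linarith [hbn n, hbn i])
  choose s hsb hs using hex1
  obtain ⟨σ, -, hσ⟩ := exists_lim U s hsb
  have hex2 : ∀ i, ∃ L : ℝ, |L| ≤ ‖ω‖ * R * R ∧ Tendsto (fun j => ω (b i) (b j)) U (nhds L) := by
    intro i
    apply exists_lim
    intro n
    refine (ω.le_opNorm₂ (b i) (b n)).trans ?_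
    have := hbn i
    have := hbn n
    gcongr
  choose L hLb hL using hex2
  obtain ⟨L', -, hL'⟩ := exists_lim U L hLb
  have hL0 : L' = 0 := omega_lim hc hp hβ ω hanti b hbn U L L' hL hL'
  have hs0 : ∀ i, 0 ≤ s i := fun i => ge_of_tendsto' (hs i) (fun n => norm_nonneg _)
  have hσ0 : 0 ≤ σ := ge_of_tendsto' hσ (fun n => hs0 n)
  have hlα0 : 0 ≤ lα := ge_of_tendsto' hlα (fun n => norm_nonneg _)
  have hlb0 : 0 ≤ lb := ge_of_tendsto' hlb (fun n => norm_nonneg _)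
  have hlμ0 : 0 ≤ lμ := ge_of_tendsto' hlμ (fun n => Nn_nonneg _ _ _ _)
  have hlν0 : 0 ≤ lν := ge_of_tendsto' hlν (fun n => Nn_nonneg _ _ _ _)
  -- (i)
  have hi : (⨅ n, ENNReal.ofReal (Dp p l ω w (x n))) ≤ ENNReal.ofReal (lα ^ p + lν ^ p) := by
    have h1 : Tendsto (fun n => ENNReal.ofReal (Dp p l ω w (x n))) U
        (nhds (ENNReal.ofReal (lα ^ p + lν ^ p))) := by
      apply ENNReal.tendsto_ofReal
      have h2 : (fun n => Dp p l ω w (x n)) = fun n => ‖a + b n‖ ^ p + Nn l ω w (x n) ^ p := by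
        funext n; unfold Dp; rw [hab n]
      rw [h2]
      exact (hlα.rpow_const (Or.inr hp0.le)).add (hlν.rpow_const (Or.inr hp0.le))
    exact ge_of_tendsto' h1 (fun n => iInf_le _ n)
  -- (ii)
  have hii : ENNReal.ofReal (lb ^ p + lμ ^ p) ≤ S := by
    have h1 : Tendsto (fun n => ENNReal.ofReal (Dp p l ω (x n) z)) U
        (nhds (ENNReal.ofReal (lb ^ p + lμ ^ p))) := by
      apply ENNReal.tendsto_ofReal
      have h2 : (fun n => Dp p l ω (x n) z) = fun n => ‖b n‖ ^ p + Nn l ω z (x n) ^ p := by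
        funext n; rw [Dp_symm hanti]; rfl
      rw [h2]
      exact (hlb.rpow_const (Or.inr hp0.le)).add (hlμ.rpow_const (Or.inr hp0.le))
    exact le_of_tendsto' h1 (fun n => le_iSup (fun n => ENNReal.ofReal (Dp p l ω (x n) z)) n)
  -- (iii)
  have hvert : ∀ i j, vert ω (x i) (x j) = τ j - τ i - ω (b i) (b j) := by
    intro i j
    rw [hτ, hb]
    unfold vert
    simp only [map_sub, sub_apply, hself]
    rw [hanti (x i).1 z.1]
    ring
  have hiii : (⨅ i, liminf (fun j => ENNReal.ofReal (Dp p l ω (x i) (x j))) atTop)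
      ≤ ENNReal.ofReal (2 * σ ^ p) := by
    have h1 : ∀ i, (⨅ i, liminf (fun j => ENNReal.ofReal (Dp p l ω (x i) (x j))) atTop)
        ≤ ENNReal.ofReal (s i ^ p + max (s i) (l * √|lτ - τ i - L i|) ^ p) := by
      intro i
      refine (iInf_le _ i).trans ?_
      have h2 : Tendsto (fun j => ENNReal.ofReal (Dp p l ω (x i) (x j))) U
          (nhds (ENNReal.ofReal (s i ^ p + max (s i) (l * √|lτ - τ i - L i|) ^ p))) := by
        apply ENNReal.tendsto_ofReal
        have h3 : (fun j => Dp p l ω (x i) (x j))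
            = fun j => ‖b j - b i‖ ^ p + max ‖b j - b i‖ (l * √|τ j - τ i - ω (b i) (b j)|) ^ p := by
          funext j
          unfold Dp Nn
          rw [hvert i j]
          have : (x j).1 - (x i).1 = b j - b i := by rw [hb]; simp only; abel
          rw [this]
        rw [h3]
        apply ((hs i).rpow_const (Or.inr hp0.le)).add
        apply Tendsto.rpow_const _ (Or.inr hp0.le)
        apply (hs i).max
        apply Tendsto.const_mul
        apply (Real.continuous_sqrt.tendsto _).comp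
        apply (continuous_abs.tendsto _).comp
        exact (hlτ.sub_const (τ i)).sub (hL i)
      rw [← h2.liminf_eq]
      exact liminf_le_liminf_of_le hUle
    have h4 : Tendsto (fun i => ENNReal.ofReal (s i ^ p + max (s i) (l * √|lτ - τ i - L i|) ^ p)) U
        (nhds (ENNReal.ofReal (2 * σ ^ p))) := by
      apply ENNReal.tendsto_ofReal
      have h5 : Tendsto (fun i => s i ^ p + max (s i) (l * √|lτ - τ i - L i|) ^ p) U
          (nhds (σ ^ p + max σ (l * √|lτ - lτ - L'|) ^ p)) := by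
        apply (hσ.rpow_const (Or.inr hp0.le)).add
        apply Tendsto.rpow_const _ (Or.inr hp0.le)
        apply hσ.max
        apply Tendsto.const_mul
        apply (Real.continuous_sqrt.tendsto _).comp
        apply (continuous_abs.tendsto _).comp
        exact (hlτ.const_sub lτ).sub hL'
      have h6 : σ ^ p + max σ (l * √|lτ - lτ - L'|) ^ p = 2 * σ ^ p := by
        rw [hL0, sub_self, sub_zero, abs_zero, Real.sqrt_zero, mul_zero, max_eq_left hσ0]
        ring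
      rw [h6] at h5
      exact h5
    exact ge_of_tendsto' h4 h1
  -- (iv)
  have hiv := banach_limit hp hκ U a b hlα hlb hs hσ
  -- (v)
  have hv : (lν / 2) ^ p ≤ Nn l ω w z ^ p / 2 + lμ ^ p / 2 := by
    have h1 : lν ≤ Nn l ω w z + lμ := by
      apply le_of_tendsto_of_tendsto' hlν (hlμ.const_add (Nn l ω w z))
      intro n
      exact Nn_triangle hl.le hanti hlω w z (x n)
    have h2 := rpow_gain hp hlν0 (Nn_nonneg l ω w z) hlμ0 (le_refl (0 : ℝ)) (by linarith)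
    linarith
  -- total
  have htot : 1 / 2 ^ p * (lα ^ p + lν ^ p) + κ / 2 * (2 * σ ^ p)
      ≤ 1 / 2 * Dp p l ω w z + 1 / 2 * (lb ^ p + lμ ^ p) := by
    rw [Real.div_rpow hlα0 (by norm_num)] at hiv
    rw [Real.div_rpow hlν0 (by norm_num)] at hv
    have e1 : 1 / 2 ^ p * (lα ^ p + lν ^ p) = lα ^ p / 2 ^ p + lν ^ p / 2 ^ p := by ring
    rw [e1]
    have e2 : Dp p l ω w z = ‖a‖ ^ p + Nn l ω w z ^ p := rfl
    rw [e2]
    linarith
  calc ENNReal.ofReal (1 / 2 ^ p) * (⨅ n, ENNReal.ofReal (Dp p l ω w (x n)))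
      + ENNReal.ofReal (κ / 2) * (⨅ i, liminf (fun j => ENNReal.ofReal (Dp p l ω (x i) (x j))) atTop)
      ≤ ENNReal.ofReal (1 / 2 ^ p) * ENNReal.ofReal (lα ^ p + lν ^ p)
        + ENNReal.ofReal (κ / 2) * ENNReal.ofReal (2 * σ ^ p) := by gcongr
    _ = ENNReal.ofReal (1 / 2 ^ p * (lα ^ p + lν ^ p) + κ / 2 * (2 * σ ^ p)) := by
        rw [← ENNReal.ofReal_mul (by positivity), ← ENNReal.ofReal_mul (by positivity),
          ← ENNReal.ofReal_add (by positivity) (by positivity)]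
    _ ≤ ENNReal.ofReal (1 / 2 * Dp p l ω w z + 1 / 2 * (lb ^ p + lμ ^ p)) :=
        ENNReal.ofReal_le_ofReal htot
    _ = 1 / 2 * ENNReal.ofReal (Dp p l ω w z) + 1 / 2 * ENNReal.ofReal (lb ^ p + lμ ^ p) := by
        have h2 : (1 / 2 : ENNReal) = ENNReal.ofReal (1 / 2) := by
          rw [ENNReal.ofReal_div_of_pos (by norm_num)]; simp
        have hD := Dp_nonneg p l ω w z
        rw [ENNReal.ofReal_add (by positivity) (by positivity), ENNReal.ofReal_mul (by norm_num),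
          ENNReal.ofReal_mul (by norm_num), h2]
    _ ≤ _ := by gcongr

end Pool.Agent.Lib.MP_f1e800_an
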